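import Mathlib

/-!
# EW-Gap: small gaps from a density bound

Choose `θ < 1` with `c < c₁ - 1 / (C θ)`. The members `d` of `S` in `(x ^ θ, x]` without a member of
`S` in `(d, d + C log d]` have pairwise distances `> g = C θ log x`, so there are at most
`x / g + 1` of them (`d ↦ ⌊d / g⌋` is injective), and at most `x ^ θ` members are `≤ x ^ θ`.
-/

namespace Pool.Agent.helper23.EW

open Finset

/-- a finite set of naturals up to `x` with pairwise distances larger than `g` -/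
private theorem ewg_card_sep (T : Finset ℕ) (x : ℕ) (hTx : ∀ d ∈ T, d ≤ x) {g : ℝ} (hg : 0 < g)
    (hsep : ∀ d ∈ T, ∀ d' ∈ T, d < d' → g < (d' : ℝ) - d) :
    (T.card : ℝ) ≤ x / g + 1 := by
  have hinj : Set.InjOn (fun d : ℕ => ⌊(d : ℝ) / g⌋₊) (T : Set ℕ) := by
    intro d hd d' hd' he
    by_contra hne
    wlog hlt : d < d' generalizing d d'
    · exact this hd' hd he.symm (Ne.symm hne) (lt_of_le_of_ne (not_lt.mp hlt) (Ne.symm hne))
    have h1 := hsep d hd d' hd' hlt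
    simp only at he
    have h2 : (d : ℝ) / g + 1 < (d' : ℝ) / g := by
      rw [div_add_one hg.ne', div_lt_div_iff_of_pos_right hg]; linarith
    have h3 : (d' : ℝ) / g < ⌊(d' : ℝ) / g⌋₊ + 1 := Nat.lt_floor_add_one _
    have h4 : (⌊(d : ℝ) / g⌋₊ : ℝ) ≤ (d : ℝ) / g := Nat.floor_le (by positivity)
    rw [he] at h4
    linarith
  have hmaps : ∀ d ∈ T, ⌊(d : ℝ) / g⌋₊ ∈ range (⌊(x : ℝ) / g⌋₊ + 1) := by
    intro d hd
    have hdx : (d : ℝ) ≤ x := by exact_mod_cast hTx d hd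
    rw [mem_range, Nat.lt_succ_iff]
    exact Nat.floor_le_floor (div_le_div_of_nonneg_right hdx hg.le)
  have hc := card_le_card_of_injOn _ hmaps hinj
  rw [card_range] at hc
  have h6 : (T.card : ℝ) ≤ (⌊(x : ℝ) / g⌋₊ : ℝ) + 1 := by exact_mod_cast hc
  have h5 : (⌊(x : ℝ) / g⌋₊ : ℝ) ≤ x / g := Nat.floor_le (by positivity)
  linarith

/-- few positive integers are at most `z` -/
private theorem ewg_card_low (T : Finset ℕ) {z : ℝ} (hz : 0 ≤ z)
    (h : ∀ d ∈ T, 1 ≤ d ∧ (d : ℝ) ≤ z) : (T.card : ℝ) ≤ z := by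
  have hsub : T ⊆ Icc 1 ⌊z⌋₊ := by
    intro d hd
    rw [mem_Icc]
    exact ⟨(h d hd).1, Nat.le_floor (h d hd).2⟩
  have hc := card_le_card hsub
  rw [Nat.card_Icc, Nat.add_sub_cancel] at hc
  calc (T.card : ℝ) ≤ (⌊z⌋₊ : ℝ) := by exact_mod_cast hc
    _ ≤ z := Nat.floor_le hz

open Classical in
/-- Many small gaps from a density bound. -/
theorem many_gaps (S : ℕ → Prop) {c₁ C c : ℝ} (hC : 0 < C) (hc : c < c₁ - 1 / C)
    (h : ∃ x₀ : ℕ, ∀ x : ℕ, x₀ ≤ x → c₁ * x / Real.log x ≤ ((Icc 1 x).filter S).card) :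
    ∃ x₀ : ℕ, ∀ x : ℕ, x₀ ≤ x → c * x / Real.log x ≤
      ((Icc 1 x).filter (fun d => S d ∧ ∃ d' : ℕ, d < d' ∧ (d' : ℝ) - d ≤ C * Real.log d ∧
        S d')).card := by
  obtain ⟨x₀, hx₀⟩ := h
  -- the exponent
  obtain ⟨θ, hθ0, hθ1, hθ⟩ : ∃ θ : ℝ, 0 < θ ∧ θ < 1 ∧ 0 < c₁ - c - 1 / (C * θ) := by
    set δ : ℝ := c₁ - 1 / C - c with hδ
    have hδ0 : 0 < δ := by rw [hδ]; linarith
    refine ⟨1 / (1 + C * δ / 2), by positivity, ?_, ?_⟩
    · rw [div_lt_one (by positivity)]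
      have : 0 < C * δ := by positivity
      linarith
    · have h1 : 1 / (C * (1 / (1 + C * δ / 2))) = 1 / C + δ / 2 := by
        field_simp
      rw [h1]
      have : c₁ - c - (1 / C + δ / 2) = δ / 2 := by rw [hδ]; ring
      rw [this]
      positivity
  set κ : ℝ := c₁ - c - 1 / (C * θ) with hκdef
  have hlog : ∀ᶠ x : ℝ in Filter.atTop, Real.log x ≤ κ / 4 * x ^ (1 - θ) := by
    have h1 := (isLittleO_log_rpow_atTop (r := 1 - θ) (by linarith)).bound
      (show (0 : ℝ) < κ / 4 by positivity)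
    filter_upwards [h1, Filter.eventually_ge_atTop (1 : ℝ)] with x hx hx1
    rw [Real.norm_of_nonneg (Real.log_nonneg hx1),
      Real.norm_of_nonneg (Real.rpow_nonneg (by linarith) _)] at hx
    exact hx
  have hall : ∀ᶠ x : ℕ in Filter.atTop, Real.log x ≤ κ / 4 * (x : ℝ) ^ (1 - θ) :=
    (tendsto_natCast_atTop_atTop (R := ℝ)).eventually hlog
  rw [← Filter.eventually_atTop]
  filter_upwards [hall, Filter.eventually_ge_atTop x₀, Filter.eventually_ge_atTop 2]
    with x hxl hx0 hx2'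
  have hx2 : (2 : ℝ) ≤ x := by exact_mod_cast hx2'
  have hxpos : (0 : ℝ) < x := by linarith
  have hL : 0 < Real.log x := Real.log_pos (by linarith)
  have hg : 0 < C * θ * Real.log x := by positivity
  have hmain := hx₀ x hx0
  set G : ℕ → Prop := fun d => ∃ d' : ℕ, d < d' ∧ (d' : ℝ) - d ≤ C * Real.log d ∧ S d' with hG
  -- split the set
  set T : Finset ℕ := (Icc 1 x).filter S with hT
  set T₁ : Finset ℕ := T.filter (fun d : ℕ => (d : ℝ) ≤ (x : ℝ) ^ θ) with hT₁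
  set T₂ : Finset ℕ := (Icc 1 x).filter (fun d => S d ∧ G d) with hT₂
  set T₃ : Finset ℕ := T.filter (fun d : ℕ => ¬ (d : ℝ) ≤ (x : ℝ) ^ θ ∧ ¬ G d) with hT₃
  have hsub : T ⊆ T₁ ∪ (T₂ ∪ T₃) := by
    intro d hd
    rw [mem_union, mem_union]
    by_cases h1 : (d : ℝ) ≤ (x : ℝ) ^ θ
    · exact Or.inl (mem_filter.2 ⟨hd, h1⟩)
    · by_cases h2 : G d
      · refine Or.inr (Or.inl (mem_filter.2 ?_))
        rw [hT, mem_filter] at hd
        exact ⟨hd.1, hd.2, h2⟩
      · exact Or.inr (Or.inr (mem_filter.2 ⟨hd, h1, h2⟩))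
  have hlow : (T₁.card : ℝ) ≤ (x : ℝ) ^ θ := by
    refine ewg_card_low _ (Real.rpow_nonneg hxpos.le _) ?_
    intro d hd
    simp only [hT₁, hT, mem_filter, mem_Icc] at hd
    exact ⟨hd.1.1.1, hd.2⟩
  have hhigh : (T₃.card : ℝ) ≤ x / (C * θ * Real.log x) + 1 := by
    refine ewg_card_sep _ x ?_ hg ?_
    · intro d hd
      simp only [hT₃, hT, mem_filter, mem_Icc] at hd
      exact hd.1.1.2
    · intro d hd d' hd' hlt
      simp only [hT₃, hT, mem_filter, mem_Icc, not_le] at hd hd'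
      have hkey : C * Real.log d < (d' : ℝ) - d := by
        by_contra hle
        exact hd.2.2 ⟨d', hlt, not_lt.mp hle, hd'.1.2⟩
      have hlogd : θ * Real.log x ≤ Real.log d := by
        rw [← Real.log_rpow hxpos]
        exact Real.log_le_log (Real.rpow_pos_of_pos hxpos _) hd.2.1.le
      nlinarith
  have hcard : (T.card : ℝ) ≤ (x : ℝ) ^ θ + (T₂.card + (x / (C * θ * Real.log x) + 1)) := by
    have h1 : T.card ≤ T₁.card + (T₂.card + T₃.card) :=
      (card_le_card hsub).trans ((card_union_le _ _).trans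
        (Nat.add_le_add_left (card_union_le _ _) _))
    have h2 : (T.card : ℝ) ≤ T₁.card + (T₂.card + T₃.card) := by exact_mod_cast h1
    linarith
  have hxθ : (1 : ℝ) ≤ (x : ℝ) ^ θ := Real.one_le_rpow (by linarith) hθ0.le
  have h5 : ((x : ℝ) ^ θ + 1) * Real.log x ≤ κ / 2 * x := by
    have hm : (x : ℝ) ^ θ * (x : ℝ) ^ (1 - θ) = x := by
      rw [← Real.rpow_add hxpos]; simp
    calc ((x : ℝ) ^ θ + 1) * Real.log x ≤ (2 * (x : ℝ) ^ θ) * Real.log x := by
          gcongr; linarith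
      _ ≤ (2 * (x : ℝ) ^ θ) * (κ / 4 * (x : ℝ) ^ (1 - θ)) := by
          gcongr
      _ = κ / 2 * ((x : ℝ) ^ θ * (x : ℝ) ^ (1 - θ)) := by ring
      _ = κ / 2 * x := by rw [hm]
  have h1 : c₁ * x / Real.log x ≤
      (x : ℝ) ^ θ + (T₂.card + (x / (C * θ * Real.log x) + 1)) := le_trans hmain hcard
  rw [div_le_iff₀ hL] at h1 ⊢
  have h3 : (x / (C * θ * Real.log x)) * Real.log x = 1 / (C * θ) * x := by
    field_simp
  have h4 : ((x : ℝ) ^ θ + (T₂.card + (x / (C * θ * Real.log x) + 1))) * Real.log x =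
      ((x : ℝ) ^ θ + 1) * Real.log x + T₂.card * Real.log x +
        (x / (C * θ * Real.log x)) * Real.log x := by ring
  rw [h4, h3] at h1
  have h6 : c * x = c₁ * x - κ * x - 1 / (C * θ) * x := by
    rw [hκdef]; ring
  have h7 : 0 < κ * x := by positivity
  rw [h6]
  linarith

end Pool.Agent.helper23.EW
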