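import Pool.Agent.helper23.EW.Defs

/-!
# EW-Pair: the construction and the injection

(1) `ew_of_pair`. Put `d = p + r`. By the Chinese remainder theorem choose `a` divisible by every
prime `l < d` with `l ≠ p`, `l ≠ r`, and with `a + d` divisible by `p * r`. Let `c = a + i`,
`1 ≤ i < d`. If `i` has a prime factor `l` outside `{p, r}` then `l` divides `a` and `c`. Otherwise
`i = 1`, `i = r` or `i = p` (since `r ^ 2 > d`, `p > r`, `2 * p > d`). Here `d - 1 = (p - 1) + r` is
divisible by `r`, so for `i = 1` the number `c = (a + d) - (d - 1)` and `a + d` are divisible by `r`;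
for `i = r`, `c = (a + d) - p`; for `i = p`, `c = (a + d) - r`.

(2) `card_good_le`. Map `p` in `good x` to `p + r` (`r` chosen). It is even (`p ≥ 3`, `r` odd because
`r ^ 2 > p + r > 2 * r`), Erdős–Woods by (1), and `2 * (p + r) ≤ 3 * p` because `p - 1` is even and
divisible by the odd number `r`, so `2 * r ≤ p - 1`. Injective: if `p + r = p' + r' = d` and `r ≠ r'`
then `r * r'` divides `d - 1` (`r ∣ d - 1`, `r' ∣ d - 1`) but `r * r' > d` as `r ^ 2 > d`, `r' ^ 2 > d`.
-/

namespace Pool.Agent.helper23.EW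

open Finset

/-- Simple consequences of the hypotheses: `3 ≤ r < p`. -/
private lemma pair_basic {p r : ℕ} (hp : p.Prime) (hr : r.Prime) (h1 : r ∣ p - 1)
    (h2 : p + r < r ^ 2) : 3 ≤ r ∧ r < p := by
  have hp2 := hp.two_le
  have hr2 := hr.two_le
  have hlt : r ≤ p - 1 := Nat.le_of_dvd (by omega) h1
  have h3 : r < p := by omega
  refine ⟨?_, h3⟩
  by_contra hcon
  have : r = 2 := by omega
  subst this
  norm_num at h2
  omega

/-- The Chinese remainder step. -/
private lemma exists_base {p r : ℕ} (hp : p.Prime) (hr : r.Prime) (d : ℕ) :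
    ∃ a : ℕ, (∀ l : ℕ, l.Prime → l < d → l ≠ p → l ≠ r → l ∣ a) ∧ p * r ∣ a + d := by
  classical
  set S : Finset ℕ := (Finset.range d).filter (fun l => l.Prime ∧ l ≠ p ∧ l ≠ r) with hS
  have hco : Nat.Coprime (∏ l ∈ S, l) (p * r) := by
    apply Nat.Coprime.prod_left
    intro l hl
    rw [hS, Finset.mem_filter] at hl
    obtain ⟨_, hlp, hne1, hne2⟩ := hl
    exact Nat.Coprime.mul_right ((Nat.coprime_primes hlp hp).2 hne1)
      ((Nat.coprime_primes hlp hr).2 hne2)
  obtain ⟨a, ha1, ha2⟩ := Nat.chineseRemainder hco 0 (p * r * d - d)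
  refine ⟨a, ?_, ?_⟩
  · intro l hl hld hlp hlr
    have hmem : l ∈ S := by
      rw [hS, Finset.mem_filter]
      exact ⟨Finset.mem_range.2 hld, hl, hlp, hlr⟩
    exact (Finset.dvd_prod_of_mem (fun l => l) hmem).trans ((Nat.modEq_zero_iff_dvd).1 ha1)
  · have hpos : 0 < p * r := Nat.mul_pos hp.pos hr.pos
    have hle : d ≤ p * r * d := Nat.le_mul_of_pos_left d hpos
    have h3 : a + d ≡ p * r * d - d + d [MOD p * r] := Nat.ModEq.add_right d ha2
    rw [Nat.sub_add_cancel hle] at h3
    exact (Nat.modEq_zero_iff_dvd).1 (h3.trans ((Nat.modEq_zero_iff_dvd).2 (dvd_mul_right _ _)))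

/-- A number below `p + r` all of whose prime factors are `p` or `r` is `1`, `r` or `p`. -/
private lemma small_cases {p r i : ℕ} (hp : p.Prime) (hr : r.Prime) (hrp : r < p)
    (h2 : p + r < r ^ 2) (hi : 1 ≤ i) (hid : i < p + r)
    (hall : ∀ l : ℕ, l.Prime → l ∣ i → l = p ∨ l = r) : i = 1 ∨ i = r ∨ i = p := by
  by_cases h1 : i = 1
  · exact Or.inl h1
  obtain ⟨q, hq, hqi⟩ := Nat.exists_prime_and_dvd h1
  rcases hall q hq hqi with rfl | rfl
  · obtain ⟨m, rfl⟩ := hqi
    right; right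
    have hm : m = 1 := by
      by_contra hm
      rcases Nat.lt_or_ge m 1 with h | h
      · have : m = 0 := by omega
        subst this
        omega
      · have hm2 : 2 ≤ m := by omega
        have : q * 2 ≤ q * m := Nat.mul_le_mul_left q hm2
        omega
    rw [hm, mul_one]
  · obtain ⟨m, rfl⟩ := hqi
    right; left
    by_cases hm1 : m = 1
    · rw [hm1, mul_one]
    exfalso
    obtain ⟨s, hs, hsm⟩ := Nat.exists_prime_and_dvd hm1
    have hmpos : 0 < m := by
      rcases Nat.eq_zero_or_pos m with h | h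
      · subst h; omega
      · exact h
    have hsle : s ≤ m := Nat.le_of_dvd hmpos hsm
    rcases hall s hs (hsm.trans (dvd_mul_left _ _)) with rfl | rfl
    · have h3 : q * s ≤ q * m := Nat.mul_le_mul_left q hsle
      have h4 : 2 * s ≤ q * s := Nat.mul_le_mul_right s hq.two_le
      omega
    · have h3 : s * s ≤ s * m := Nat.mul_le_mul_left s hsle
      rw [pow_two] at h2
      omega

theorem ew_of_pair {p r : ℕ} (hp : p.Prime) (hr : r.Prime) (h1 : r ∣ p - 1)
    (h2 : p + r < r ^ 2) : ErdosWoods (p + r) := by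
  obtain ⟨hr3, hrp⟩ := pair_basic hp hr h1 h2
  refine ⟨by omega, ?_⟩
  obtain ⟨a, ha1, ha2⟩ := exists_base hp hr (p + r)
  have hpa : p ∣ a + (p + r) := (dvd_mul_right p r).trans ha2
  have hra : r ∣ a + (p + r) := (dvd_mul_left r p).trans ha2
  refine ⟨a, ?_⟩
  intro c hac hcd
  obtain ⟨i, rfl⟩ := Nat.exists_eq_add_of_lt hac
  set j := i + 1 with hj
  have hc : a + i + 1 = a + j := by omega
  rw [hc] at *
  have hj1 : 1 ≤ j := by omega
  have hjd : j < p + r := by omega
  by_cases hex : ∃ l : ℕ, l.Prime ∧ l ∣ j ∧ l ≠ p ∧ l ≠ r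
  · obtain ⟨l, hl, hlj, hlp, hlr⟩ := hex
    left
    have hlle : l ≤ j := Nat.le_of_dvd (by omega) hlj
    have hla : l ∣ a := ha1 l hl (by omega) hlp hlr
    have hlc : l ∣ a + j := dvd_add hla hlj
    have hg : l ∣ Nat.gcd a (a + j) := Nat.dvd_gcd hla hlc
    have hgpos : 0 < Nat.gcd a (a + j) := Nat.gcd_pos_of_pos_right _ (by omega)
    exact lt_of_lt_of_le hl.one_lt (Nat.le_of_dvd hgpos hg)
  · right
    have key : ∀ s : ℕ, s.Prime → s ∣ a + j → s ∣ a + (p + r) →
        1 < Nat.gcd (a + j) (a + (p + r)) := by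
      intro s hs hs1 hs2
      have hg : s ∣ Nat.gcd (a + j) (a + (p + r)) := Nat.dvd_gcd hs1 hs2
      have hgpos : 0 < Nat.gcd (a + j) (a + (p + r)) := Nat.gcd_pos_of_pos_right _ (by omega)
      exact lt_of_lt_of_le hs.one_lt (Nat.le_of_dvd hgpos hg)
    have hall : ∀ l : ℕ, l.Prime → l ∣ j → l = p ∨ l = r := by
      intro l hl hlj
      by_contra hcon
      push Not at hcon
      exact hex ⟨l, hl, hlj, hcon.1, hcon.2⟩
    rcases small_cases hp hr hrp h2 hj1 hjd hall with h | h | h
    · refine key r hr ?_ hra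
      have h3 : r ∣ (p - 1) + r := dvd_add h1 (dvd_refl r)
      have h4 : a + j = a + (p + r) - ((p - 1) + r) := by
        have := hp.two_le
        omega
      rw [h4]
      exact Nat.dvd_sub hra h3
    · refine key p hp ?_ hpa
      have h4 : a + j = a + (p + r) - p := by omega
      rw [h4]
      exact Nat.dvd_sub hpa (dvd_refl p)
    · refine key r hr ?_ hra
      have h4 : a + j = a + (p + r) - r := by omega
      rw [h4]
      exact Nat.dvd_sub hra (dvd_refl r)

/-- `2 r ≤ p - 1` and `p + r` is even. -/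
private lemma pair_even {p r : ℕ} (hp : p.Prime) (hr : r.Prime) (h1 : r ∣ p - 1)
    (h2 : p + r < r ^ 2) : 2 * r ≤ p - 1 ∧ Even (p + r) := by
  obtain ⟨hr3, hrp⟩ := pair_basic hp hr h1 h2
  have hpo : Odd p := hp.odd_of_ne_two (by omega)
  have hro : Odd r := hr.odd_of_ne_two (by omega)
  refine ⟨?_, hpo.add_odd hro⟩
  obtain ⟨m, hm⟩ := h1
  have hev : Even (p - 1) := by
    obtain ⟨t, ht⟩ := hpo
    exact ⟨t, by omega⟩
  rw [hm, Nat.even_mul] at hev
  have hme : Even m := by
    rcases hev with h | h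
    · exact absurd h (Nat.not_even_iff_odd.2 hro)
    · exact h
  have hm0 : m ≠ 0 := by
    rintro rfl
    omega
  obtain ⟨t, ht⟩ := hme
  have hm2 : 2 ≤ m := by omega
  have : r * 2 ≤ r * m := Nat.mul_le_mul_left r hm2
  omega

private lemma pair_inj {p r p' r' : ℕ} (hp : p.Prime) (hr : r.Prime) (h1 : r ∣ p - 1)
    (h2 : p + r < r ^ 2) (hp' : p'.Prime) (hr' : r'.Prime) (h1' : r' ∣ p' - 1)
    (h2' : p' + r' < r' ^ 2) (heq : p + r = p' + r') : p = p' := by
  by_cases hrr : r = r'
  · omega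
  exfalso
  have hp2 := hp.two_le
  have hp2' := hp'.two_le
  have hd : r ∣ p + r - 1 := by
    have h3 : r ∣ (p - 1) + r := dvd_add h1 (dvd_refl r)
    have h4 : p + r - 1 = (p - 1) + r := by omega
    rw [h4]
    exact h3
  have hd' : r' ∣ p + r - 1 := by
    have h3 : r' ∣ (p' - 1) + r' := dvd_add h1' (dvd_refl r')
    have h4 : p + r - 1 = (p' - 1) + r' := by omega
    rw [h4]
    exact h3
  have hco : Nat.Coprime r r' := (Nat.coprime_primes hr hr').2 hrr
  have hmul : r * r' ∣ p + r - 1 := Nat.Coprime.mul_dvd_of_dvd_of_dvd hco hd hd'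
  have hle : r * r' ≤ p + r - 1 := Nat.le_of_dvd (by omega) hmul
  have h3 : r * r' < p + r := by omega
  have h2'' : p + r < r' ^ 2 := by omega
  rcases Nat.le_total r r' with h | h
  · have : r * r ≤ r * r' := Nat.mul_le_mul_left r h
    rw [pow_two] at h2
    omega
  · have : r' * r' ≤ r * r' := Nat.mul_le_mul_right r' h
    rw [pow_two] at h2''
    omega

open Classical in
/-- The injection, with control of the size of `r`. -/
theorem card_sdiff_le {K x y : ℕ} (h : (K + 1) * x ≤ K * y) :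
    (good x \ bad K x).card ≤ (evenEW y).card := by
  have hex : ∀ p ∈ good x \ bad K x, ∃ r : ℕ, r.Prime ∧ r ∣ p - 1 ∧ p + r < r ^ 2 := by
    intro p hp
    rw [Finset.mem_sdiff] at hp
    have hp1 := hp.1
    unfold good at hp1
    rw [Finset.mem_filter] at hp1
    exact hp1.2.2
  have hprime : ∀ p ∈ good x \ bad K x, p.Prime ∧ p ≤ x := by
    intro p hp
    rw [Finset.mem_sdiff] at hp
    have hp1 := hp.1
    unfold good at hp1
    rw [Finset.mem_filter, Finset.mem_Icc] at hp1
    exact ⟨hp1.2.1, hp1.1.2⟩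
  have hbad : ∀ p ∈ good x \ bad K x, ∀ r : ℕ, r.Prime → r ∣ p - 1 → p + r < r ^ 2 →
      p + r ≤ y := by
    intro p hp r hr hdv hlt
    obtain ⟨hpp, hpx⟩ := hprime p hp
    rw [Finset.mem_sdiff] at hp
    have hp2 := hp.2
    unfold bad at hp2
    rw [Finset.mem_filter, Finset.mem_Icc] at hp2
    obtain ⟨k, hk⟩ := hdv
    have hKk : K < k := by
      by_contra hcon
      exact hp2 ⟨⟨hpp.one_lt.le, hpx⟩, hpp, k, r, by omega, hr, hlt, by rw [hk, mul_comm]⟩
    have h1 : K * r ≤ p - 1 := by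
      rw [hk, mul_comm]
      exact Nat.mul_le_mul_left r hKk.le
    have hp2' := hpp.two_le
    have hK0 : 0 < K := by
      rcases Nat.eq_zero_or_pos K with h0 | h0
      · subst h0
        simp only [zero_add, one_mul, zero_mul] at h
        omega
      · exact h0
    have h2 : K * (p + r) ≤ K * y := by
      have h3 : (K + 1) * p ≤ (K + 1) * x := Nat.mul_le_mul_left _ hpx
      have h4 : K * (p + r) = K * p + K * r := by ring
      have h5 : (K + 1) * p = K * p + p := by ring
      omega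
    exact Nat.le_of_mul_le_mul_left h2 hK0
  choose! r hr using hex
  refine Finset.card_le_card_of_injOn (fun p => p + r p) ?_ ?_
  · intro p hp
    have hp0 : p ∈ good x \ bad K x := by simpa using hp
    obtain ⟨hpp, hpx⟩ := hprime p hp0
    obtain ⟨hrp, hdv, hlt⟩ := hr p hp0
    obtain ⟨h3, h4⟩ := pair_even hpp hrp hdv hlt
    have hp2 := hpp.two_le
    have hy := hbad p hp0 (r p) hrp hdv hlt
    have : p + r p ∈ evenEW y := by
      unfold evenEW
      rw [Finset.mem_filter, Finset.mem_Icc]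
      exact ⟨⟨by omega, hy⟩, h4, ew_of_pair hpp hrp hdv hlt⟩
    simpa using this
  · intro p hp p' hp' heq
    have hp0 : p ∈ good x \ bad K x := by simpa using hp
    have hp0' : p' ∈ good x \ bad K x := by simpa using hp'
    obtain ⟨hpp, _⟩ := hprime p hp0
    obtain ⟨hrp, hdv, hlt⟩ := hr p hp0
    obtain ⟨hpp', _⟩ := hprime p' hp0'
    obtain ⟨hrp', hdv', hlt'⟩ := hr p' hp0'
    exact pair_inj hpp hrp hdv hlt hpp' hrp' hdv' hlt' heq

theorem card_good_le {x y : ℕ} (h : 3 * x ≤ 2 * y) : (good x).card ≤ (evenEW y).card := by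
  classical
  have hex : ∀ p ∈ good x, ∃ r : ℕ, r.Prime ∧ r ∣ p - 1 ∧ p + r < r ^ 2 := by
    intro p hp
    unfold good at hp
    rw [Finset.mem_filter] at hp
    exact hp.2.2
  have hprime : ∀ p ∈ good x, p.Prime ∧ p ≤ x := by
    intro p hp
    unfold good at hp
    rw [Finset.mem_filter, Finset.mem_Icc] at hp
    exact ⟨hp.2.1, hp.1.2⟩
  choose! r hr using hex
  refine Finset.card_le_card_of_injOn (fun p => p + r p) ?_ ?_
  · intro p hp
    have hp0 : p ∈ good x := by simpa using hp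
    obtain ⟨hpp, hpx⟩ := hprime p hp0
    obtain ⟨hrp, hdv, hlt⟩ := hr p hp0
    obtain ⟨h3, h4⟩ := pair_even hpp hrp hdv hlt
    have hp2 := hpp.two_le
    have : p + r p ∈ evenEW y := by
      unfold evenEW
      rw [Finset.mem_filter, Finset.mem_Icc]
      exact ⟨⟨by omega, by omega⟩, h4, ew_of_pair hpp hrp hdv hlt⟩
    simpa using this
  · intro p hp p' hp' heq
    have hp0 : p ∈ good x := by simpa using hp
    have hp0' : p' ∈ good x := by simpa using hp'
    obtain ⟨hpp, _⟩ := hprime p hp0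
    obtain ⟨hrp, hdv, hlt⟩ := hr p hp0
    obtain ⟨hpp', _⟩ := hprime p' hp0'
    obtain ⟨hrp', hdv', hlt'⟩ := hr p' hp0'
    exact pair_inj hpp hrp hdv hlt hpp' hrp' hdv' hlt' heq

end Pool.Agent.helper23.EW
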