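import Pool.Agent.helper23.EW.Main

/-!
# EW-Sparse: few primes `p` with `(p - 1) / k` prime for a small `k`

Second moment of the number of primes `l` of a finite set `S` dividing `p - 1`, over the primes
`p ≤ x`: it is `≤ μ x + O_S(x / log x)`, `μ = ∑_{l ∈ S} 1 / (l - 1)`. If all `l ∈ S` exceed `K` and
`p - 1 = k r` with `k ≤ K`, `r` a large prime, then no `l ∈ S` divides `p - 1`.
-/

namespace Pool.Agent.helper23.EW

open Finset Filter

theorem ap_all (Z : ℕ) : ∃ C : ℝ, ∃ x₀ : ℕ, 0 ≤ C ∧ ∀ x : ℕ, x₀ ≤ x → ∀ q : ℕ, 1 ≤ q → q ≤ Z →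
    |BVM.thetaAP q 1 x - x / q.totient| ≤ C * x / Real.log x := by
  obtain ⟨C, x₀, hC, hbv⟩ := bv_all
  have hlog : Tendsto (fun x : ℕ => Real.log x) atTop atTop :=
    Real.tendsto_log_atTop.comp tendsto_natCast_atTop_atTop
  have hev : ∀ᶠ x : ℕ in atTop, ∀ q : ℕ, 1 ≤ q → q ≤ Z →
      |BVM.thetaAP q 1 x - x / q.totient| ≤ C * x / Real.log x := by
    filter_upwards [hlog.eventually_ge_atTop 1, hlog.eventually_ge_atTop (Z : ℝ), ev_sqrt,
      eventually_ge_atTop x₀] with x e1 e2 e3 e4 q hq1 hqZ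
    obtain ⟨E, hE0, hE1, hE2⟩ := hbv x e4
    obtain ⟨_, p2, _⟩ := params e1 e3
    refine (hE1 q (by omega)).trans (le_trans ?_ (hE2 Z (by linarith)))
    exact Finset.single_le_sum (fun i _ => hE0 i) (Finset.mem_Icc.2 ⟨hq1, hqZ⟩)
  obtain ⟨x₁, hx₁⟩ := eventually_atTop.1 hev
  exact ⟨C, x₁, hC, hx₁⟩

/-- the number of elements of `S` dividing `p - 1` -/
noncomputable def uu (S : Finset ℕ) (p : ℕ) : ℝ := ∑ l ∈ S, if l ∣ p - 1 then (1 : ℝ) else 0

/-- `∑_{l ∈ S} 1 / (l - 1)` -/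
noncomputable def mu (S : Finset ℕ) : ℝ := ∑ l ∈ S, 1 / ((l : ℝ) - 1)

theorem sum_uu (S : Finset ℕ) (x : ℕ) :
    ∑ p ∈ (Icc 1 x).filter Nat.Prime, Real.log p * uu S p = ∑ l ∈ S, BVM.thetaAP l 1 x := by
  simp only [thetaAP_eq, uu, Finset.mul_sum]
  rw [Finset.sum_comm]
  refine Finset.sum_congr rfl fun l _ => Finset.sum_congr rfl fun p _ => ?_
  split_ifs <;> simp

theorem sum_uu_sq (S : Finset ℕ) (x : ℕ) :
    ∑ p ∈ (Icc 1 x).filter Nat.Prime, Real.log p * uu S p ^ 2 =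
      ∑ l ∈ S, ∑ m ∈ S, BVM.thetaAP (Nat.lcm l m) 1 x := by
  have h1 : ∀ p : ℕ, uu S p ^ 2 = ∑ l ∈ S, ∑ m ∈ S, if Nat.lcm l m ∣ p - 1 then (1 : ℝ) else 0 := by
    intro p
    rw [sq, uu, Finset.sum_mul_sum]
    refine Finset.sum_congr rfl fun l _ => Finset.sum_congr rfl fun m _ => ?_
    by_cases h1 : l ∣ p - 1 <;> by_cases h2 : m ∣ p - 1
    · rw [if_pos h1, if_pos h2, if_pos (Nat.lcm_dvd h1 h2), one_mul]
    · rw [if_pos h1, if_neg h2, if_neg (fun h => h2 ((Nat.dvd_lcm_right l m).trans h)), mul_zero]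
    · rw [if_neg h1, if_neg (fun h => h1 ((Nat.dvd_lcm_left l m).trans h)), zero_mul]
    · rw [if_neg h1, if_neg (fun h => h1 ((Nat.dvd_lcm_left l m).trans h)), zero_mul]
  simp only [h1, thetaAP_eq, Finset.mul_sum]
  rw [Finset.sum_comm]
  refine Finset.sum_congr rfl fun l _ => ?_
  rw [Finset.sum_comm]
  refine Finset.sum_congr rfl fun m _ => Finset.sum_congr rfl fun p _ => ?_
  split_ifs <;> simp

theorem mu_nonneg {S : Finset ℕ} (hS : ∀ l ∈ S, l.Prime) : 0 ≤ mu S := by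
  unfold mu
  refine Finset.sum_nonneg fun l hl => ?_
  have : (2 : ℝ) ≤ l := by exact_mod_cast (hS l hl).two_le
  have : 0 < (l : ℝ) - 1 := by linarith
  positivity

theorem second {S : Finset ℕ} (hS : ∀ l ∈ S, l.Prime) : ∃ C : ℝ, ∃ x₀ : ℕ, 0 ≤ C ∧
    ∀ x : ℕ, x₀ ≤ x → ∑ p ∈ (Icc 1 x).filter Nat.Prime, Real.log p * (uu S p - mu S) ^ 2 ≤
      x * mu S + C * x / Real.log x := by
  obtain ⟨C, x₀, hC, h⟩ := ap_all ((∑ l ∈ S, l) ^ 2 + 1)
  have hμ := mu_nonneg hS
  refine ⟨C * ((S.card : ℝ) ^ 2 + 2 * mu S * S.card + mu S ^ 2), max 3 x₀, by positivity,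
    fun x hx => ?_⟩
  have hx0 : x₀ ≤ x := (le_max_right _ _).trans hx
  set D : ℝ := C * x / Real.log x with hD
  have hle : ∀ l ∈ S, l ≤ ∑ l ∈ S, l := fun l hl =>
    Finset.single_le_sum (f := fun l => l) (fun i _ => Nat.zero_le i) hl
  have h1 : ∀ l ∈ S, ∀ m ∈ S, BVM.thetaAP (Nat.lcm l m) 1 x ≤
      x * (1 / ((l : ℝ) - 1) * (1 / ((m : ℝ) - 1)) + if l = m then 1 / ((l : ℝ) - 1) else 0) +
        D := by
    intro l hl m hm
    have hlp := hS l hl
    have hmp := hS m hm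
    have hl1 : (0 : ℝ) < (l : ℝ) - 1 := by
      have : (2 : ℝ) ≤ l := by exact_mod_cast hlp.two_le
      linarith
    have hm1 : (0 : ℝ) < (m : ℝ) - 1 := by
      have : (2 : ℝ) ≤ m := by exact_mod_cast hmp.two_le
      linarith
    have hpos : 1 ≤ Nat.lcm l m := Nat.lcm_pos hlp.pos hmp.pos
    have hZ : Nat.lcm l m ≤ (∑ l ∈ S, l) ^ 2 + 1 := by
      have e1 : Nat.lcm l m ≤ l * m := Nat.le_of_dvd (Nat.mul_pos hlp.pos hmp.pos)
        (Nat.lcm_dvd (dvd_mul_right _ _) (dvd_mul_left _ _))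
      have e2 : l * m ≤ (∑ l ∈ S, l) * (∑ l ∈ S, l) := Nat.mul_le_mul (hle l hl) (hle m hm)
      rw [pow_two]
      omega
    have h2 := (abs_le.1 (h x hx0 _ hpos hZ)).2
    have h3 : (x : ℝ) / (Nat.lcm l m).totient ≤
        x * (1 / ((l : ℝ) - 1) * (1 / ((m : ℝ) - 1)) +
          if l = m then 1 / ((l : ℝ) - 1) else 0) := by
      rw [div_eq_mul_one_div]
      apply mul_le_mul_of_nonneg_left _ (Nat.cast_nonneg x)
      by_cases hlm : l = m
      · subst hlm
        rw [if_pos rfl, Nat.lcm_self, Nat.totient_prime hlp, Nat.cast_sub hlp.one_le,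
          Nat.cast_one]
        have : 0 ≤ 1 / ((l : ℝ) - 1) * (1 / ((l : ℝ) - 1)) := by positivity
        linarith
      · rw [if_neg hlm, add_zero]
        have hco : Nat.Coprime l m := (Nat.coprime_primes hlp hmp).2 hlm
        rw [Nat.Coprime.lcm_eq_mul hco, Nat.totient_mul hco, Nat.totient_prime hlp,
          Nat.totient_prime hmp]
        push_cast [Nat.cast_sub hlp.one_le, Nat.cast_sub hmp.one_le]
        rw [one_div_mul_one_div]
    linarith
  have h4 : ∑ l ∈ S, ∑ m ∈ S, BVM.thetaAP (Nat.lcm l m) 1 x ≤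
      x * (mu S ^ 2 + mu S) + (S.card : ℝ) ^ 2 * D := by
    refine (Finset.sum_le_sum fun l hl => Finset.sum_le_sum fun m hm => h1 l hl m hm).trans ?_
    have e1 : ∑ l ∈ S, ∑ m ∈ S, (1 / ((l : ℝ) - 1) * (1 / ((m : ℝ) - 1)) +
        if l = m then 1 / ((l : ℝ) - 1) else 0) = mu S ^ 2 + mu S := by
      simp only [Finset.sum_add_distrib]
      rw [← Finset.sum_mul_sum, sq]
      congr 1
      unfold mu
      refine Finset.sum_congr rfl fun l hl => ?_
      rw [Finset.sum_ite_eq, if_pos hl]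
    simp only [Finset.sum_add_distrib, ← Finset.mul_sum, Finset.sum_const, nsmul_eq_mul] at *
    rw [e1]
    apply le_of_eq
    ring
  have h5 : x * mu S - S.card * D ≤ ∑ l ∈ S, BVM.thetaAP l 1 x := by
    have e1 : ∀ l ∈ S, x * (1 / ((l : ℝ) - 1)) - D ≤ BVM.thetaAP l 1 x := by
      intro l hl
      have hlp := hS l hl
      have hZ : l ≤ (∑ l ∈ S, l) ^ 2 + 1 := by
        have e2 := hle l hl
        nlinarith
      have h2 := (abs_le.1 (h x hx0 l hlp.one_le hZ)).1
      rw [Nat.totient_prime hlp, Nat.cast_sub hlp.one_le, Nat.cast_one,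
        div_eq_mul_one_div (x : ℝ) ((l : ℝ) - 1)] at h2
      linarith
    refine le_trans (le_of_eq ?_) (Finset.sum_le_sum e1)
    rw [Finset.sum_sub_distrib, ← Finset.mul_sum, Finset.sum_const, nsmul_eq_mul]
    rfl
  have h6 : ∑ p ∈ (Icc 1 x).filter Nat.Prime, Real.log p ≤ x + D := by
    have h2 := (abs_le.1 (h x hx0 1 le_rfl (by omega))).2
    rw [Nat.totient_one, Nat.cast_one, div_one, thetaAP_eq] at h2
    simp only [one_dvd, if_true] at h2
    linarith
  have h7 : ∑ p ∈ (Icc 1 x).filter Nat.Prime, Real.log p * (uu S p - mu S) ^ 2 =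
      ∑ p ∈ (Icc 1 x).filter Nat.Prime, Real.log p * uu S p ^ 2 -
        2 * mu S * ∑ p ∈ (Icc 1 x).filter Nat.Prime, Real.log p * uu S p +
        mu S ^ 2 * ∑ p ∈ (Icc 1 x).filter Nat.Prime, Real.log p := by
    rw [Finset.mul_sum, Finset.mul_sum, ← Finset.sum_sub_distrib, ← Finset.sum_add_distrib]
    refine Finset.sum_congr rfl fun p _ => ?_
    ring
  rw [h7, sum_uu, sum_uu_sq]
  have h8 : 2 * mu S * (x * mu S - S.card * D) ≤ 2 * mu S * ∑ l ∈ S, BVM.thetaAP l 1 x := by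
    gcongr
  have h9 : mu S ^ 2 * ∑ p ∈ (Icc 1 x).filter Nat.Prime, Real.log p ≤ mu S ^ 2 * (x + D) := by
    gcongr
  have h10 : C * ((S.card : ℝ) ^ 2 + 2 * mu S * S.card + mu S ^ 2) * x / Real.log x =
      ((S.card : ℝ) ^ 2 + 2 * mu S * S.card + mu S ^ 2) * D := by
    rw [hD]; ring
  rw [h10]
  nlinarith

theorem exists_S (K : ℕ) (M : ℝ) : ∃ S : Finset ℕ, (∀ l ∈ S, l.Prime ∧ K < l) ∧ M ≤ mu S := by
  classical
  by_contra hcon
  push Not at hcon
  apply not_summable_one_div_on_primes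
  have hnn : ∀ i : ℕ, 0 ≤ Set.indicator {p : ℕ | p.Prime} (fun n : ℕ => (1 : ℝ) / n) i := by
    intro i
    apply Set.indicator_nonneg
    intro j _
    positivity
  refine summable_of_sum_le (c := ∑ i ∈ range (K + 1),
    Set.indicator {p : ℕ | p.Prime} (fun n : ℕ => (1 : ℝ) / n) i + M) hnn fun u => ?_
  have h1 : ∑ i ∈ u, Set.indicator {p : ℕ | p.Prime} (fun n : ℕ => (1 : ℝ) / n) i ≤
      ∑ i ∈ range (K + 1), Set.indicator {p : ℕ | p.Prime} (fun n : ℕ => (1 : ℝ) / n) i +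
      ∑ i ∈ u.filter (fun l => l.Prime ∧ K < l), (1 : ℝ) / i := by
    rw [← Finset.sum_filter_add_sum_filter_not u (fun l => l ≤ K)]
    refine add_le_add ?_ ?_
    · refine Finset.sum_le_sum_of_subset_of_nonneg ?_ fun i _ _ => hnn i
      intro a ha
      rw [Finset.mem_filter] at ha
      exact Finset.mem_range.2 (by omega)
    · apply le_of_eq
      have h3 : u.filter (fun l => l.Prime ∧ K < l) =
          (u.filter (fun l => ¬ l ≤ K)).filter (fun l => l.Prime) := by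
        ext a
        simp only [Finset.mem_filter, not_le]
        tauto
      rw [h3, Finset.sum_filter (fun l => Nat.Prime l)]
      refine Finset.sum_congr rfl fun i _ => ?_
      rw [Set.indicator_apply]
      rfl
  have h4 : ∑ i ∈ u.filter (fun l => l.Prime ∧ K < l), (1 : ℝ) / i ≤
      mu (u.filter (fun l => l.Prime ∧ K < l)) := by
    unfold mu
    refine Finset.sum_le_sum fun i hi => ?_
    rw [Finset.mem_filter] at hi
    have : (2 : ℝ) ≤ i := by exact_mod_cast hi.2.1.two_le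
    apply one_div_le_one_div_of_le <;> linarith
  have h5 := hcon (u.filter (fun l => l.Prime ∧ K < l)) (fun l hl => (Finset.mem_filter.1 hl).2)
  linarith

theorem bad_uu {K x : ℕ} {S : Finset ℕ} (hS : ∀ l ∈ S, l.Prime ∧ K < l) {p : ℕ}
    (hp : p ∈ bad K x) (hz : (∑ l ∈ S, l) ^ 2 < p) : uu S p = 0 := by
  classical
  unfold bad at hp
  rw [Finset.mem_filter] at hp
  obtain ⟨_, hpp, k, r, hk, hr, hlt, heq⟩ := hp
  unfold uu
  refine Finset.sum_eq_zero fun l hl => ?_
  rw [if_neg]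
  intro hdv
  obtain ⟨hlp, hKl⟩ := hS l hl
  have hle : l ≤ ∑ l ∈ S, l :=
    Finset.single_le_sum (f := fun l => l) (fun i _ => Nat.zero_le i) hl
  rw [heq] at hdv
  rcases (Nat.Prime.dvd_mul hlp).1 hdv with h | h
  · have hk0 : 0 < k := by
      rcases Nat.eq_zero_or_pos k with h0 | h0
      · subst h0
        have := hpp.two_le
        omega
      · exact h0
    have := Nat.le_of_dvd hk0 h
    omega
  · have hlr : l = r := (Nat.prime_dvd_prime_iff_eq hlp hr).1 h
    subst hlr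
    have : l ^ 2 ≤ (∑ l ∈ S, l) ^ 2 := Nat.pow_le_pow_left hle 2
    omega

theorem bad_card (K : ℕ) {ε : ℝ} (hε : 0 < ε) : ∃ x₀ : ℕ, ∀ x : ℕ, x₀ ≤ x →
    ((bad K x).card : ℝ) ≤ ε * x / Real.log x := by
  classical
  obtain ⟨S, hS, hM⟩ := exists_S K (8 / ε)
  obtain ⟨C, x₀, hC, h2⟩ := second (fun l hl => (hS l hl).1)
  set μ : ℝ := mu S with hμ
  have hμ0 : 0 < μ := lt_of_lt_of_le (by positivity) hM
  set z : ℕ := ∑ l ∈ S, l with hz
  have hlog : Tendsto (fun x : ℕ => Real.log x) atTop atTop :=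
    Real.tendsto_log_atTop.comp tendsto_natCast_atTop_atTop
  have hev : ∀ᶠ x : ℕ in atTop, ((bad K x).card : ℝ) ≤ ε * x / Real.log x := by
    filter_upwards [hlog.eventually_ge_atTop 1, hlog.eventually_ge_atTop (C / μ), ev_sqrt,
      hlog.eventually_ge_atTop (2 / ε), eventually_ge_atTop x₀, eventually_ge_atTop 3,
      eventually_ge_atTop ((z ^ 2) ^ 2)] with x e1 e2 e3 e4 e5 e6 e7
    set L : ℝ := Real.log x with hL
    have hL0 : 0 < L := by linarith
    have hx3 : (3 : ℝ) ≤ x := by exact_mod_cast e6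
    have hx0 : (0 : ℝ) < x := by linarith
    set s : ℝ := √(x : ℝ) with hs
    have hs0 : 0 ≤ s := Real.sqrt_nonneg _
    have hss : s * s = x := Real.mul_self_sqrt hx0.le
    -- the second moment
    have t1 : ∑ p ∈ (Icc 1 x).filter Nat.Prime, Real.log p * (uu S p - μ) ^ 2 ≤ 2 * (x * μ) := by
      refine (h2 x e5).trans ?_
      have : C * x / L ≤ x * μ := by
        rw [div_le_iff₀ hL0]
        rw [div_le_iff₀ hμ0] at e2
        nlinarith
      linarith
    set B : Finset ℕ := (bad K x).filter (fun p => Nat.sqrt x < p) with hB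
    have hBp : ∀ p ∈ B, p ∈ (Icc 1 x).filter Nat.Prime := by
      intro p hp
      rw [hB, Finset.mem_filter] at hp
      have hp1 := hp.1
      unfold bad at hp1
      rw [Finset.mem_filter] at hp1
      exact Finset.mem_filter.2 ⟨hp1.1, hp1.2.1⟩
    have t2 : (B.card : ℝ) * (L / 2 * μ ^ 2) ≤ 2 * (x * μ) := by
      refine le_trans ?_ t1
      have a1 : ∑ p ∈ B, Real.log p * (uu S p - μ) ^ 2 ≤
          ∑ p ∈ (Icc 1 x).filter Nat.Prime, Real.log p * (uu S p - μ) ^ 2 := by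
        refine Finset.sum_le_sum_of_subset_of_nonneg hBp fun p _ _ => ?_
        have := Real.log_natCast_nonneg p
        positivity
      refine le_trans ?_ a1
      rw [← nsmul_eq_mul, ← Finset.sum_const]
      refine Finset.sum_le_sum fun p hp => ?_
      rw [hB, Finset.mem_filter] at hp
      have b1 : z ^ 2 < p := by
        refine lt_of_le_of_lt ?_ hp.2
        rw [Nat.le_sqrt, ← pow_two]
        exact e7
      rw [bad_uu hS hp.1 b1, zero_sub, neg_sq]
      have b2 : L / 2 ≤ Real.log p := by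
        rw [hL, ← Real.log_sqrt hx0.le]
        apply Real.log_le_log (Real.sqrt_pos.2 hx0)
        have : √(x : ℝ) < (Nat.sqrt x : ℕ) + 1 := Real.real_sqrt_lt_nat_sqrt_succ
        have b3 : ((Nat.sqrt x : ℕ) : ℝ) + 1 ≤ p := by exact_mod_cast hp.2
        linarith
      gcongr
    have t3 : (B.card : ℝ) ≤ ε / 2 * x / L := by
      rw [le_div_iff₀ hL0]
      have a1 : (B.card : ℝ) * L * μ ≤ 4 * x := by
        have : ((B.card : ℝ) * L * μ) * μ ≤ (4 * x) * μ := by nlinarith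
        exact le_of_mul_le_mul_right this hμ0
      have a2 : 8 ≤ ε * μ := by
        rw [div_le_iff₀ hε] at hM
        linarith
      have a3 : (B.card : ℝ) * L * 8 ≤ (B.card : ℝ) * L * (ε * μ) := by gcongr
      nlinarith
    have t4 : ((Nat.sqrt x : ℕ) : ℝ) ≤ ε / 2 * x / L := by
      have a1 : ((Nat.sqrt x : ℕ) : ℝ) ≤ s := Real.nat_sqrt_le_real_sqrt
      refine a1.trans ?_
      rw [le_div_iff₀ hL0]
      have a2 : L ≤ ε / 2 * s := by
        rw [div_le_iff₀ hε] at e4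
        have a3 : L * L ≤ 8 * L ^ 63 := by
          have a4 : (1 : ℝ) ≤ L ^ 61 := one_le_pow₀ e1
          have a5 : 8 * L ^ 63 = 8 * L ^ 61 * (L * L) := by ring
          rw [a5]
          nlinarith [mul_pos hL0 hL0]
        have a6 : L * L ≤ s := a3.trans e3
        nlinarith
      calc s * L ≤ s * (ε / 2 * s) := by gcongr
        _ = ε / 2 * (s * s) := by ring
        _ = ε / 2 * x := by rw [hss]
    have t5 : (bad K x).card ≤ Nat.sqrt x + B.card := by
      have a1 : bad K x ⊆ Icc 1 (Nat.sqrt x) ∪ B := by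
        intro p hp
        rw [Finset.mem_union]
        rcases Nat.lt_or_ge (Nat.sqrt x) p with h | h
        · exact Or.inr (Finset.mem_filter.2 ⟨hp, h⟩)
        · left
          unfold bad at hp
          rw [Finset.mem_filter, Finset.mem_Icc] at hp
          exact Finset.mem_Icc.2 ⟨hp.1.1, h⟩
      refine (Finset.card_le_card a1).trans ((Finset.card_union_le _ _).trans ?_)
      rw [Nat.card_Icc]
      omega
    have t6 : ((bad K x).card : ℝ) ≤ (Nat.sqrt x : ℕ) + B.card := by exact_mod_cast t5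
    calc ((bad K x).card : ℝ) ≤ (Nat.sqrt x : ℕ) + B.card := t6
      _ ≤ ε / 2 * x / L + ε / 2 * x / L := add_le_add t4 t3
      _ = ε * x / L := by ring
  exact eventually_atTop.1 hev

end Pool.Agent.helper23.EW
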