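import Pool.Agent.helper91.BrunTitchmarsh
import Pool.Agent.helper10.BV.Defs3

/-!
# EW-BT: a Brun–Titchmarsh bound in the progression `1 mod r`

(1) `bt_ap`. Take `z = ⌊M ^ (1/8)⌋₊ ≥ 1`, so `z < r`. `r` is a prime `> z`, so it is coprime to `z!`;
choose `a` with `r * a ≡ 1 mod z!`. For `d ≤ z` (`d ∣ z!`): `d ∣ r * m + 1 ↔ d ∣ r * (m + a) ↔
d ∣ m + a`. So `BT.W z (r * m + 1) = BT.W z (m + a)` (helper91/BrunTitchmarsh.lean: `W` only
depends on the divisors `d ≤ z`), `BT.W_prime` gives weight `1` when `r * m + 1` is prime (it is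
`> r > z`), and `BT.sum_W_le` over `Ioc a (a + M)` gives the bound `M / G z + z ^ 4`; finish as in
`BT.brun_titchmarsh` (`G_ge_log`).

(2) `theta_le`. `thetaAP r 1 x` sums `log p ≤ log x` over primes `p ≤ x`, `p ≡ 1 mod r`, that is
`p = r * m + 1`, `1 ≤ m ≤ M := x / r`. Here `M ≤ x / r ≤ r ^ 2 < r ^ 8`, and
`(M + 1) ^ 3 > x`, so `M ^ 4 ≥ x` for large `x`. So
`thetaAP r 1 x ≤ log x * 20 * M / log M ≤ 80 * x / r`.
-/

namespace Pool.Agent.helper23.EW

open Finset
open scoped Nat

private lemma W_congr {z n n' : ℕ} (h : ∀ d, 1 ≤ d → d ≤ z → (d ∣ n ↔ d ∣ n')) :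
    helper91.BT.W z n = helper91.BT.W z n' := by
  unfold helper91.BT.W
  have : (helper91.BT.D z).filter (fun d => d ∣ n) = (helper91.BT.D z).filter (fun d => d ∣ n') := by
    refine Finset.filter_congr (fun d hd => ?_)
    have h1 := (helper91.BT.mem_D.mp hd).1
    exact h d h1.1 h1.2
  rw [this]

private lemma exists_shift {z r : ℕ} (hr : r.Prime) (hz : z < r) :
    ∃ a : ℕ, ∀ m d : ℕ, 1 ≤ d → d ≤ z → (d ∣ r * m + 1 ↔ d ∣ m + a) := by
  have hcop : Nat.Coprime r z ! := by
    rw [Nat.Prime.coprime_iff_not_dvd hr, hr.dvd_factorial]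
    omega
  refine ⟨r ^ (Nat.totient (z !) - 1), fun m d hd1 hd2 => ?_⟩
  have hd : d ∣ z ! := Nat.dvd_factorial hd1 hd2
  have hE : r ^ Nat.totient (z !) ≡ 1 [MOD z !] := Nat.ModEq.pow_totient hcop
  have hpos : 0 < Nat.totient (z !) := Nat.totient_pos.mpr (Nat.factorial_pos z)
  have hmul : r * r ^ (Nat.totient (z !) - 1) = r ^ Nat.totient (z !) := by
    rw [← pow_succ']
    congr 1
    omega
  have h1 : r * (m + r ^ (Nat.totient (z !) - 1)) ≡ r * m + 1 [MOD d] := by
    rw [mul_add, hmul]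
    exact Nat.ModEq.add_left _ (hE.of_dvd hd)
  have hcd : Nat.Coprime d r := (Nat.Coprime.coprime_dvd_right hd hcop).symm
  calc d ∣ r * m + 1 ↔ d ∣ r * (m + r ^ (Nat.totient (z !) - 1)) :=
        (Nat.ModEq.dvd_iff h1 dvd_rfl).symm
    _ ↔ d ∣ m + r ^ (Nat.totient (z !) - 1) := hcd.dvd_mul_left

theorem bt_ap {r M : ℕ} (hr : r.Prime) (hM : 2 ≤ M) (hMr : M < r ^ 8) :
    (((Icc 1 M).filter (fun m => (r * m + 1).Prime)).card : ℝ) ≤ 20 * M / Real.log M := by
  have hM' : (2:ℝ) ≤ M := by exact_mod_cast hM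
  have hM0 : (0:ℝ) < M := by linarith
  have hlog : 0 < Real.log M := Real.log_pos (by linarith)
  set t : ℝ := (M:ℝ) ^ ((1:ℝ)/8) with ht
  have ht1 : 1 ≤ t := Real.one_le_rpow (by linarith) (by norm_num)
  have ht8 : t ^ 8 = M := by
    rw [ht, ← Real.rpow_natCast, ← Real.rpow_mul hM0.le]
    norm_num
  set z : ℕ := ⌊t⌋₊ with hz
  have hz1 : 1 ≤ z := by rw [hz]; exact Nat.le_floor (by simpa using ht1)
  have hzt : (z:ℝ) ≤ t := Nat.floor_le (by linarith)
  have hzt2 : t < z + 1 := Nat.lt_floor_add_one t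
  have htr : t < r := by
    have h1 : t ^ 8 < (r:ℝ) ^ 8 := by rw [ht8]; exact_mod_cast hMr
    exact lt_of_pow_lt_pow_left₀ 8 (by positivity) h1
  have hzr : z < r := by exact_mod_cast lt_of_le_of_lt hzt htr
  obtain ⟨a, ha⟩ := exists_shift hr hzr
  have hcard : (((Icc 1 M).filter (fun m => (r * m + 1).Prime)).card : ℝ) ≤
      M / helper91.BT.G z + (z:ℝ) ^ 4 := by
    calc (((Icc 1 M).filter (fun m => (r * m + 1).Prime)).card : ℝ)
        = ∑ m ∈ (Icc 1 M).filter (fun m => (r * m + 1).Prime), (1:ℝ) := by simp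
      _ = ∑ m ∈ (Icc 1 M).filter (fun m => (r * m + 1).Prime), helper91.BT.W z (m + a) := by
          refine Finset.sum_congr rfl (fun m hm => ?_)
          rw [Finset.mem_filter, Finset.mem_Icc] at hm
          rw [← W_congr (ha m), helper91.BT.W_prime hz1 hm.2]
          nlinarith [hm.1.1, hr.pos]
      _ ≤ ∑ m ∈ Icc 1 M, helper91.BT.W z (m + a) :=
          Finset.sum_le_sum_of_subset_of_nonneg (Finset.filter_subset _ _)
            (fun _ _ _ => helper91.BT.W_nonneg _ _)
      _ = ∑ n ∈ Ioc a (a + M), helper91.BT.W z n := by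
          refine Finset.sum_nbij' (fun m => m + a) (fun n => n - a) ?_ ?_ ?_ ?_ ?_
          · intro m hm
            simp only [Finset.mem_Icc, Finset.mem_Ioc] at hm ⊢
            omega
          · intro n hn
            simp only [Finset.mem_Icc, Finset.mem_Ioc] at hn ⊢
            omega
          · intro m _
            change m + a - a = m
            omega
          · intro n hn
            simp only [Finset.mem_Ioc] at hn
            change n - a + a = n
            omega
          · intro m _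
            rfl
      _ ≤ _ := helper91.BT.sum_W_le hz1 a M
  have hG : Real.log M / 16 ≤ helper91.BT.G z := by
    have h2 := helper91.BT.G_ge_log z
    have h3 : Real.log t ≤ Real.log (z + 1) := Real.log_le_log (by linarith) hzt2.le
    have h4 : Real.log t = Real.log M / 8 := by
      rw [ht, Real.log_rpow hM0]; ring
    linarith
  have h5 : (M:ℝ) / helper91.BT.G z ≤ 16 * M / Real.log M := by
    calc (M:ℝ) / helper91.BT.G z ≤ M / (Real.log M / 16) := by gcongr
      _ = _ := by field_simp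
  have ht4 : t ^ 4 = Real.sqrt M := by
    rw [ht, ← Real.rpow_natCast, ← Real.rpow_mul hM0.le, Real.sqrt_eq_rpow]
    norm_num
  have h6 : (z:ℝ) ^ 4 ≤ Real.sqrt M := by rw [← ht4]; gcongr
  have h8 : Real.sqrt M ≤ 2 * M / Real.log M := by
    rw [le_div_iff₀ hlog]
    have h9 : Real.log M ≤ 2 * Real.sqrt M := by
      have := Real.log_le_rpow_div hM0.le (show (0:ℝ) < 1/2 by norm_num)
      rw [← Real.sqrt_eq_rpow] at this
      linarith
    have h10 : Real.sqrt M * Real.sqrt M = M := Real.mul_self_sqrt hM0.le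
    nlinarith [Real.sqrt_nonneg (M:ℝ)]
  have h11 : 20 * M / Real.log M = 16 * M / Real.log M + 2 * M / Real.log M
      + 2 * M / Real.log M := by ring
  have h12 : 0 ≤ 2 * M / Real.log M := by positivity
  rw [h11]
  linarith

theorem theta_le : ∃ x₀ : ℕ, ∀ x r : ℕ, x₀ ≤ x → r.Prime → x ≤ r ^ 3 → r ^ 3 ≤ x ^ 2 →
    BVM.thetaAP r 1 x ≤ 80 * x / r := by
  refine ⟨64, fun x r hx hr hxr hrx => ?_⟩
  have hr0 : 0 < r := hr.pos
  have hr2 : 2 ≤ r := hr.two_le
  set M : ℕ := x / r with hMdef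
  have hMx : r * M ≤ x := Nat.mul_div_le x r
  have hMx' : x < r * (M + 1) := Nat.lt_mul_div_succ x hr0
  -- (M+1)^3 > x
  have hcube : x < (M + 1) ^ 3 := by
    have h1 : x ^ 3 < (r * (M + 1)) ^ 3 := Nat.pow_lt_pow_left hMx' (by norm_num)
    have h2 : (r * (M + 1)) ^ 3 ≤ x ^ 2 * (M + 1) ^ 3 := by
      rw [mul_pow]
      exact Nat.mul_le_mul_right _ hrx
    have h3 : x ^ 2 * x < x ^ 2 * (M + 1) ^ 3 := by
      calc x ^ 2 * x = x ^ 3 := by ring
        _ < _ := lt_of_lt_of_le h1 h2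
    exact lt_of_mul_lt_mul_left h3 (Nat.zero_le _)
  have hM4 : 4 ≤ M := by
    by_contra hcon
    push Not at hcon
    have h1 : (M + 1) ^ 3 ≤ 4 ^ 3 := Nat.pow_le_pow_left (by omega) 3
    have h2 : (4:ℕ) ^ 3 = 64 := by norm_num
    omega
  have hM44 : x ≤ M ^ 4 := by
    have h1 : (M + 1) ^ 3 ≤ M ^ 4 := by
      have h2 : (M + 1) ^ 3 = M ^ 3 + 3 * M ^ 2 + 3 * M + 1 := by ring
      have h3 : M ^ 4 = M * M ^ 3 := by ring
      have h4 : 4 * M ^ 3 ≤ M * M ^ 3 := Nat.mul_le_mul_right _ hM4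
      have h5 : 4 * M ^ 2 ≤ M ^ 3 := by
        calc 4 * M ^ 2 ≤ M * M ^ 2 := Nat.mul_le_mul_right _ hM4
          _ = M ^ 3 := by ring
      have h6 : 4 * M ≤ M ^ 2 := by
        calc 4 * M ≤ M * M := Nat.mul_le_mul_right _ hM4
          _ = M ^ 2 := by ring
      omega
    omega
  have hMr8 : M < r ^ 8 := by
    have h1 : M ≤ x := Nat.div_le_self x r
    have h2 : r ^ 3 < r ^ 8 := Nat.pow_lt_pow_right (by omega) (by norm_num)
    omega
  have hxR : (64:ℝ) ≤ x := by exact_mod_cast hx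
  have hx0 : (0:ℝ) < x := by linarith
  have hMR : (4:ℝ) ≤ M := by exact_mod_cast hM4
  have hlogM : 0 < Real.log M := Real.log_pos (by linarith)
  have hlogx : 0 ≤ Real.log x := Real.log_nonneg (by linarith)
  have hlog4 : Real.log x ≤ 4 * Real.log M := by
    have h1 : (x:ℝ) ≤ (M:ℝ) ^ 4 := by exact_mod_cast hM44
    calc Real.log x ≤ Real.log ((M:ℝ) ^ 4) := Real.log_le_log hx0 h1
      _ = 4 * Real.log M := by rw [Real.log_pow]; norm_num
  have hbt := bt_ap hr (show 2 ≤ M by omega) hMr8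
  -- the sum
  have hcard : (((Icc 1 x).filter (fun p => p.Prime ∧ p ≡ 1 [MOD r])).card) ≤
      ((Icc 1 M).filter (fun m => (r * m + 1).Prime)).card := by
    have hsub : (Icc 1 x).filter (fun p => p.Prime ∧ p ≡ 1 [MOD r]) ⊆
        ((Icc 1 M).filter (fun m => (r * m + 1).Prime)).image (fun m => r * m + 1) := by
      intro p hp
      rw [Finset.mem_filter, Finset.mem_Icc] at hp
      obtain ⟨⟨hp1, hpx⟩, hpp, hmod⟩ := hp
      have hdvd : r ∣ p - 1 := (Nat.modEq_iff_dvd' hp1).mp hmod.symm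
      obtain ⟨m, hm⟩ := hdvd
      have hpm : p = r * m + 1 := by omega
      have hm1 : 1 ≤ m := by
        rcases Nat.eq_zero_or_pos m with h | h
        · exfalso
          rw [h] at hpm
          simp at hpm
          exact hpp.one_lt.ne' hpm
        · exact h
      have hmM : m ≤ M := by
        rw [hMdef, Nat.le_div_iff_mul_le hr0]
        calc m * r = r * m := mul_comm _ _
          _ ≤ x := by omega
      rw [Finset.mem_image]
      refine ⟨m, ?_, hpm.symm⟩
      rw [Finset.mem_filter, Finset.mem_Icc]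
      exact ⟨⟨hm1, hmM⟩, hpm ▸ hpp⟩
    exact (Finset.card_le_card hsub).trans Finset.card_image_le
  have hth : BVM.thetaAP r 1 x ≤
      (((Icc 1 M).filter (fun m => (r * m + 1).Prime)).card : ℝ) * Real.log x := by
    unfold BVM.thetaAP
    calc _ ≤ ∑ p ∈ (Icc 1 x).filter (fun p => p.Prime ∧ p ≡ 1 [MOD r]), Real.log x := by
          refine le_trans (Finset.sum_le_sum (g := fun _ => Real.log x) ?_) (le_of_eq ?_)
          · intro p hp
            rw [Finset.mem_filter, Finset.mem_Icc] at hp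
            have h1 : (0:ℝ) < p := by exact_mod_cast hp.1.1
            exact Real.log_le_log h1 (by exact_mod_cast hp.1.2)
          · congr 1
      _ = (((Icc 1 x).filter (fun p => p.Prime ∧ p ≡ 1 [MOD r])).card : ℝ) * Real.log x := by
          rw [Finset.sum_const, nsmul_eq_mul]
      _ ≤ _ := by
          gcongr
  have hMle : (M:ℝ) ≤ x / r := by
    rw [le_div_iff₀ (by exact_mod_cast hr0)]
    have : (r:ℝ) * M ≤ x := by exact_mod_cast hMx
    linarith
  calc BVM.thetaAP r 1 x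
      ≤ (((Icc 1 M).filter (fun m => (r * m + 1).Prime)).card : ℝ) * Real.log x := hth
    _ ≤ (20 * M / Real.log M) * (4 * Real.log M) := by
        have h0 : 0 ≤ 20 * M / Real.log M := by positivity
        exact mul_le_mul hbt hlog4 hlogx h0
    _ = 80 * M := by field_simp; ring
    _ ≤ 80 * (x / r) := by gcongr
    _ = 80 * x / r := by ring

end Pool.Agent.helper23.EW
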