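import Mathlib

/-!
# Erdős–Woods numbers: definitions
-/

namespace Pool.Agent.helper23.EW

open Finset

/-- Every integer strictly between `a` and `a + d` has a common prime factor with `a` or with
`a + d`. -/
def NC (a d : ℕ) : Prop :=
  ∀ c : ℕ, a < c → c < a + d → 1 < Nat.gcd a c ∨ 1 < Nat.gcd c (a + d)

/-- `d ≥ 3` is an Erdős–Woods number when `NC a d` holds for some natural number `a`. -/
def ErdosWoods (d : ℕ) : Prop := 3 ≤ d ∧ ∃ a : ℕ, NC a d

open Classical in
/-- The even Erdős–Woods numbers up to `x`. -/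
noncomputable def evenEW (x : ℕ) : Finset ℕ :=
  (Icc 1 x).filter (fun d => Even d ∧ ErdosWoods d)

open Classical in
/-- The primes `p ≤ x` such that `p - 1` has a prime factor `r` with `p + r < r ^ 2`. -/
noncomputable def good (x : ℕ) : Finset ℕ :=
  (Icc 1 x).filter (fun p => p.Prime ∧ ∃ r : ℕ, r.Prime ∧ r ∣ p - 1 ∧ p + r < r ^ 2)

open Classical in
/-- The primes `p ≤ x` such that `p - 1 = k * r` with `k ≤ K` and a prime `r`,
`p + r < r ^ 2`. -/
noncomputable def bad (K x : ℕ) : Finset ℕ :=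
  (Icc 1 x).filter (fun p => p.Prime ∧ ∃ k r : ℕ, k ≤ K ∧ r.Prime ∧ p + r < r ^ 2 ∧
    p - 1 = k * r)

end Pool.Agent.helper23.EW
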