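import Pool.Agent.helper10.BV.Defs3

/-!
# EW-Total: the whole sum

(1) `total_eq`: exchange of summation, `∑_{n ∣ p - 1} Λ(n) = log (p - 1)`
(`ArithmeticFunction.vonMangoldt_sum`); for `n ≤ x`, `1 ≤ n`, `p` prime:
`p ≡ 1 [MOD n] ↔ n ∣ p - 1`.
(2) `total_lower`: `BVM.PntErr` (with `A = 1`) gives `ψ(x) = x + O(x / log x)`, Mathlib gives
`ψ - θ ≤ 2 √x log x` (`Chebyshev.abs_psi_sub_theta_le_sqrt_mul_log` or similar), so
`θ(x) ≥ (1 - ε/3) x` for large `x`. Put `y = ⌊x / log x⌋₊`. The sum is at least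
`∑_{y < p ≤ x} log p * log y = log y * (θ(x) - θ(y))`, `θ(y) ≤ log 4 * y`, and
`log y ≥ log x - log log x - 1`.
-/

namespace Pool.Agent.helper23.EW

open Finset ArithmeticFunction

theorem thetaAP_eq (n x : ℕ) : BVM.thetaAP n 1 x =
    ∑ p ∈ (Icc 1 x).filter Nat.Prime, if n ∣ p - 1 then Real.log p else 0 := by
  classical
  unfold BVM.thetaAP
  rw [← Finset.sum_filter, Finset.filter_filter]
  apply Finset.sum_congr
  · ext p
    simp only [Finset.mem_filter, Finset.mem_Icc]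
    constructor
    · rintro ⟨h1, h2, h3⟩
      refine ⟨h1, h2, ?_⟩
      exact (Nat.modEq_iff_dvd' h2.one_lt.le).1 h3.symm
    · rintro ⟨h1, h2, h3⟩
      refine ⟨h1, h2, ?_⟩
      exact ((Nat.modEq_iff_dvd' h2.one_lt.le).2 h3).symm
  · intros; rfl

theorem total_eq (x : ℕ) : ∑ n ∈ Icc 1 x, vonMangoldt n * BVM.thetaAP n 1 x =
    ∑ p ∈ (Icc 1 x).filter Nat.Prime, Real.log p * Real.log ((p : ℝ) - 1) := by
  classical
  simp only [thetaAP_eq, Finset.mul_sum]
  rw [Finset.sum_comm]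
  apply Finset.sum_congr rfl
  intro p hp
  rw [Finset.mem_filter, Finset.mem_Icc] at hp
  obtain ⟨⟨hp1, hpx⟩, hpp⟩ := hp
  have h2 := hpp.two_le
  have hs : (Icc 1 x).filter (fun n => n ∣ p - 1) = (p - 1).divisors := by
    ext n
    simp only [Finset.mem_filter, Finset.mem_Icc, Nat.mem_divisors]
    constructor
    · rintro ⟨_, h⟩
      exact ⟨h, by omega⟩
    · rintro ⟨h, h0⟩
      have := Nat.le_of_dvd (by omega) h
      have h3 : 0 < n := Nat.pos_of_dvd_of_pos h (by omega)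
      exact ⟨⟨h3, by omega⟩, h⟩
  have h4 : ∑ n ∈ Icc 1 x, vonMangoldt n * (if n ∣ p - 1 then Real.log p else 0) =
      ∑ n ∈ (Icc 1 x).filter (fun n => n ∣ p - 1), vonMangoldt n * Real.log p := by
    rw [Finset.sum_filter]
    apply Finset.sum_congr rfl
    intro n _
    split_ifs <;> simp
  rw [h4, hs, ← Finset.sum_mul, ArithmeticFunction.vonMangoldt_sum, mul_comm,
    Nat.cast_sub (by omega)]
  norm_num

theorem theta_nat (n : ℕ) : Chebyshev.theta n = ∑ p ∈ (Icc 1 n).filter Nat.Prime, Real.log p := by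
  unfold Chebyshev.theta
  rw [Nat.floor_natCast]
  rfl

theorem total_term_nonneg {p : ℕ} (hp : p.Prime) : 0 ≤ Real.log p * Real.log ((p : ℝ) - 1) := by
  have h2 : (2 : ℝ) ≤ p := by exact_mod_cast hp.two_le
  exact mul_nonneg (Real.log_nonneg (by linarith)) (Real.log_nonneg (by linarith))

/-- The sum over `y < p ≤ x`. -/
theorem total_cut {x y : ℕ} (hyx : y ≤ x) (hy : 1 ≤ y) {L : ℝ} (hL : L ≤ Real.log y) :
    L * (Chebyshev.theta x - Chebyshev.theta y) ≤
      ∑ p ∈ (Icc 1 x).filter Nat.Prime, Real.log p * Real.log ((p : ℝ) - 1) := by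
  have hsub : (Icc 1 y).filter Nat.Prime ⊆ (Icc 1 x).filter Nat.Prime := by
    apply Finset.filter_subset_filter
    exact Finset.Icc_subset_Icc_right hyx
  have h1 : Chebyshev.theta x - Chebyshev.theta y =
      ∑ p ∈ (Icc 1 x).filter Nat.Prime \ (Icc 1 y).filter Nat.Prime, Real.log p := by
    rw [theta_nat, theta_nat, ← Finset.sum_sdiff hsub]
    ring
  rw [h1, Finset.mul_sum]
  calc ∑ p ∈ (Icc 1 x).filter Nat.Prime \ (Icc 1 y).filter Nat.Prime, L * Real.log p
      ≤ ∑ p ∈ (Icc 1 x).filter Nat.Prime \ (Icc 1 y).filter Nat.Prime,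
          Real.log p * Real.log ((p : ℝ) - 1) := by
        apply Finset.sum_le_sum
        intro p hp
        simp only [Finset.mem_sdiff, Finset.mem_filter, Finset.mem_Icc, not_and] at hp
        obtain ⟨⟨⟨hp1, hpx⟩, hpp⟩, hn⟩ := hp
        have hyp : y < p := by
          by_contra hcon
          exact hn ⟨hp1, by omega⟩ hpp
        have h2 : (2 : ℝ) ≤ p := by exact_mod_cast hpp.two_le
        have h3 : (y : ℝ) ≤ (p : ℝ) - 1 := by
          have : ((y + 1 : ℕ) : ℝ) ≤ p := by exact_mod_cast hyp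
          push_cast at this
          linarith
        have h4 : (0 : ℝ) < y := by exact_mod_cast hy
        have h5 : L ≤ Real.log ((p : ℝ) - 1) := hL.trans (Real.log_le_log h4 h3)
        have h6 : 0 ≤ Real.log p := Real.log_nonneg (by linarith)
        nlinarith
    _ ≤ _ := by
        apply Finset.sum_le_sum_of_subset_of_nonneg Finset.sdiff_subset
        intro p hp _
        rw [Finset.mem_filter] at hp
        exact total_term_nonneg hp.2

theorem total_lower (hP : BVM.PntErr) {ε : ℝ} (hε : 0 < ε) : ∃ x₀ : ℕ, ∀ x : ℕ, x₀ ≤ x →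
    (1 - ε) * (x * Real.log x) ≤ ∑ n ∈ Icc 1 x, vonMangoldt n * BVM.thetaAP n 1 x := by
  obtain ⟨C, hC⟩ := hP 1
  set e : ℝ := min ε 1 with he
  have he0 : 0 < e := lt_min hε one_pos
  have he1 : e ≤ 1 := min_le_right _ _
  have heε : e ≤ ε := min_le_left _ _
  -- the eventual conditions
  have hlog : Filter.Tendsto (fun x : ℕ => Real.log (x : ℝ)) Filter.atTop Filter.atTop :=
    Real.tendsto_log_atTop.comp tendsto_natCast_atTop_atTop
  have hev1 : ∀ᶠ x : ℕ in Filter.atTop, C / (e / 8) ≤ Real.log (x : ℝ) :=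
    hlog.eventually_ge_atTop _
  have hev2 : ∀ᶠ x : ℕ in Filter.atTop, -Real.log (e / 16) / (e / 2) ≤ Real.log (x : ℝ) :=
    hlog.eventually_ge_atTop _
  have hev3 : ∀ᶠ x : ℕ in Filter.atTop, 16 / e ≤ (x : ℝ) :=
    tendsto_natCast_atTop_atTop.eventually_ge_atTop _
  have hev4 : ∀ᶠ x : ℕ in Filter.atTop, (3 : ℝ) ≤ (x : ℝ) :=
    tendsto_natCast_atTop_atTop.eventually_ge_atTop _
  have hev5 : ∀ᶠ x : ℕ in Filter.atTop, ‖Real.log (x : ℝ)‖ ≤ e / 16 * ‖(x : ℝ) ^ (1 / 2 : ℝ)‖ := by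
    have h := (isLittleO_log_rpow_atTop (show (0 : ℝ) < 1 / 2 by norm_num)).def
      (show 0 < e / 16 by positivity)
    exact tendsto_natCast_atTop_atTop.eventually h
  obtain ⟨x₀, hx₀⟩ := Filter.eventually_atTop.1
    (hev1.and (hev2.and (hev3.and (hev4.and hev5))))
  refine ⟨x₀, fun x hx => ?_⟩
  obtain ⟨h1, h2, h3, h4, h5⟩ := hx₀ x hx
  have hx0 : (0 : ℝ) < x := by linarith
  have hlx : 0 < Real.log (x : ℝ) := Real.log_pos (by linarith)
  rw [total_eq]
  -- `y`
  set y : ℕ := ⌊e / 8 * (x : ℝ)⌋₊ with hy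
  have hexge : 2 ≤ e / 8 * (x : ℝ) := by
    rw [div_le_iff₀ he0] at h3
    linarith
  have hy1 : (y : ℝ) ≤ e / 8 * x := Nat.floor_le (by positivity)
  have hy2 : e / 8 * (x : ℝ) - 1 < y := by
    have := Nat.lt_floor_add_one (e / 8 * (x : ℝ))
    linarith
  have hy3 : e / 16 * (x : ℝ) ≤ y := by linarith
  have hyx : y ≤ x := by
    have : (y : ℝ) ≤ x := by nlinarith
    exact_mod_cast this
  have hy4 : 1 ≤ y := by
    have : (0 : ℝ) < y := by linarith
    exact_mod_cast this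
  have hL : (1 - e / 2) * Real.log x ≤ Real.log y := by
    have h6 : Real.log (e / 16 * (x : ℝ)) ≤ Real.log y :=
      Real.log_le_log (by positivity) hy3
    rw [Real.log_mul (by positivity) hx0.ne'] at h6
    rw [div_le_iff₀ (by positivity)] at h2
    linarith
  have hcut := total_cut hyx hy4 hL
  refine le_trans ?_ hcut
  -- `θ`
  have hpsi : (x : ℝ) - e / 8 * x ≤ Chebyshev.psi x := by
    have h6 := hC x h4 x le_rfl
    rw [pow_one] at h6
    have h7 : C * (x : ℝ) / Real.log x ≤ e / 8 * x := by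
      rw [div_le_iff₀ (by positivity)] at h1
      rw [div_le_iff₀ hlx]
      nlinarith
    have := (abs_le.1 h6).1
    linarith
  have hth : (1 - e / 4) * (x : ℝ) ≤ Chebyshev.theta x := by
    have h6 := Chebyshev.psi_sub_theta_le (x := (x : ℝ)) (by linarith)
    have h7 : 2 * √(x : ℝ) * Real.log x ≤ e / 8 * x := by
      rw [← Real.sqrt_eq_rpow, Real.norm_of_nonneg hlx.le,
        Real.norm_of_nonneg (Real.sqrt_nonneg _)] at h5
      have h8 : √(x : ℝ) * √(x : ℝ) = x := Real.mul_self_sqrt hx0.le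
      have h9 := mul_le_mul_of_nonneg_left h5 (Real.sqrt_nonneg (x : ℝ))
      nlinarith
    linarith
  have hthy : Chebyshev.theta y ≤ e / 4 * x := by
    have h6 := Chebyshev.theta_le_log4_mul_x (x := (y : ℝ)) (Nat.cast_nonneg _)
    have h7 : Real.log 4 ≤ 2 := by
      have : (4 : ℝ) = 2 ^ 2 := by norm_num
      rw [this, Real.log_pow]
      have := Real.log_two_lt_d9
      push_cast
      linarith
    have h8 : Real.log 4 * (y : ℝ) ≤ 2 * (e / 8 * x) := by
      have : (0 : ℝ) ≤ y := Nat.cast_nonneg _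
      nlinarith
    linarith
  have hdiff : (1 - e / 2) * (x : ℝ) ≤ Chebyshev.theta x - Chebyshev.theta y := by linarith
  have hpos : 0 ≤ (1 - e / 2) * Real.log x := mul_nonneg (by linarith) hlx.le
  calc (1 - ε) * ((x : ℝ) * Real.log x) ≤ (1 - e) * ((x : ℝ) * Real.log x) := by
        apply mul_le_mul_of_nonneg_right (by linarith)
        positivity
    _ ≤ (1 - e / 2) * Real.log x * ((1 - e / 2) * (x : ℝ)) := by
        have : 0 ≤ (x : ℝ) * Real.log x := by positivity
        nlinarith [mul_nonneg this (sq_nonneg e)]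
    _ ≤ _ := mul_le_mul_of_nonneg_left hdiff hpos

end Pool.Agent.helper23.EW
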