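import Pool.Agent.helper23.EW.Defs
import Pool.Agent.helper23.EW.Total

/-!
# EW-High: the large primes

Exchange summation: the left side is `∑_{p ≤ x} log p * ∑ log r` over the primes `r` with
`Nat.sqrt x + 1 < r`, `r ∣ p - 1`. For each prime `p ≤ x` there is at most one such `r` (two of them
would give `r * r' ∣ p - 1 < x`, but `r * r' > x`), and then `r * (r - 1) > x ≥ p`, so
`p + r < r ^ 2` and `p ∈ good x`. Each term is at most `log x * log x`.
-/

namespace Pool.Agent.helper23.EW

open Finset

theorem high_sum (x : ℕ) :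
    ∑ r ∈ (Ioc (Nat.sqrt x + 1) x).filter Nat.Prime, Real.log r * BVM.thetaAP r 1 x ≤
      (good x).card * Real.log x ^ 2 := by
  classical
  simp only [thetaAP_eq, Finset.mul_sum]
  rw [Finset.sum_comm]
  have hL : 0 ≤ Real.log x := Real.log_natCast_nonneg x
  have h1 : ∀ p ∈ (Icc 1 x).filter Nat.Prime,
      ∑ r ∈ (Ioc (Nat.sqrt x + 1) x).filter Nat.Prime,
        Real.log r * (if r ∣ p - 1 then Real.log p else 0) ≤
      if p ∈ good x then Real.log x ^ 2 else 0 := by
    intro p hp
    rw [Finset.mem_filter, Finset.mem_Icc] at hp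
    obtain ⟨⟨hp1, hpx⟩, hpp⟩ := hp
    have hp2 := hpp.two_le
    set T : Finset ℕ := ((Ioc (Nat.sqrt x + 1) x).filter Nat.Prime).filter (fun r => r ∣ p - 1)
      with hT
    have h2 : ∑ r ∈ (Ioc (Nat.sqrt x + 1) x).filter Nat.Prime,
        Real.log r * (if r ∣ p - 1 then Real.log p else 0) = ∑ r ∈ T, Real.log r * Real.log p := by
      rw [hT, Finset.sum_filter (fun r => r ∣ p - 1)]
      refine Finset.sum_congr rfl fun r _ => ?_
      split_ifs <;> simp
    rw [h2]
    have hlt : x < (Nat.sqrt x + 1) * (Nat.sqrt x + 1) := Nat.lt_succ_sqrt x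
    have hcard : T.card ≤ 1 := by
      rw [Finset.card_le_one]
      intro a ha b hb
      rw [hT, Finset.mem_filter, Finset.mem_filter, Finset.mem_Ioc] at ha hb
      by_contra hab
      have hco : Nat.Coprime a b := (Nat.coprime_primes ha.1.2 hb.1.2).2 hab
      have hd : a * b ∣ p - 1 := Nat.Coprime.mul_dvd_of_dvd_of_dvd hco ha.2 hb.2
      have hle : a * b ≤ p - 1 := Nat.le_of_dvd (by omega) hd
      have : (Nat.sqrt x + 1) * (Nat.sqrt x + 1) ≤ a * b :=
        Nat.mul_le_mul ha.1.1.1.le hb.1.1.1.le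
      omega
    have hterm : ∀ r ∈ T, Real.log r * Real.log p ≤ Real.log x ^ 2 := by
      intro r hr
      rw [hT, Finset.mem_filter, Finset.mem_filter, Finset.mem_Ioc] at hr
      have hr0 : (0 : ℝ) < r := by exact_mod_cast hr.1.2.pos
      have hp0 : (0 : ℝ) < p := by exact_mod_cast hpp.pos
      have e1 : Real.log r ≤ Real.log x := Real.log_le_log hr0 (by exact_mod_cast hr.1.1.2)
      have e2 : Real.log p ≤ Real.log x := Real.log_le_log hp0 (by exact_mod_cast hpx)
      rw [sq]
      exact mul_le_mul e1 e2 (Real.log_natCast_nonneg p) hL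
    rcases Finset.eq_empty_or_nonempty T with he | ⟨r, hr⟩
    · rw [he, Finset.sum_empty]
      split_ifs
      · positivity
      · exact le_rfl
    · have hmem : p ∈ good x := by
        rw [hT, Finset.mem_filter, Finset.mem_filter, Finset.mem_Ioc] at hr
        unfold good
        rw [Finset.mem_filter, Finset.mem_Icc]
        refine ⟨⟨hp1, hpx⟩, hpp, r, hr.1.2, hr.2, ?_⟩
        have h3 : Nat.sqrt x + 1 ≤ r - 1 := by omega
        have h4 : (Nat.sqrt x + 1) * (Nat.sqrt x + 1) ≤ (r - 1) * r :=
          Nat.mul_le_mul h3 hr.1.1.1.le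
        have h5 : (r - 1) * r + r = r ^ 2 := by
          obtain ⟨t, rfl⟩ : ∃ t, r = t + 1 := ⟨r - 1, by omega⟩
          rw [Nat.add_sub_cancel]
          ring
        omega
      rw [if_pos hmem]
      have h6 := Finset.sum_le_card_nsmul T _ _ hterm
      refine h6.trans ?_
      rw [nsmul_eq_mul]
      have h7 : (T.card : ℝ) ≤ 1 := by exact_mod_cast hcard
      nlinarith [sq_nonneg (Real.log x)]
  refine (Finset.sum_le_sum h1).trans ?_
  rw [← Finset.sum_filter, Finset.sum_const, nsmul_eq_mul]
  have h8 : (((Icc 1 x).filter Nat.Prime).filter (fun p => p ∈ good x)).card ≤ (good x).card := by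
    apply Finset.card_le_card
    intro p hp
    exact (Finset.mem_filter.1 hp).2
  have h9 : ((((Icc 1 x).filter Nat.Prime).filter (fun p => p ∈ good x)).card : ℝ) ≤
      (good x).card := by exact_mod_cast h8
  gcongr

end Pool.Agent.helper23.EW
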