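import Pool.Agent.helper91.Mertens

/-!
# EW-LamPhi: the sum of `Λ(n) / φ(n)`

`∑_{n ≤ Q} Λ(n)/φ(n) ≤ ∑_{p ≤ Q} log p * ∑_{j ≥ 1} 1/(p^(j-1) (p-1))`
`= ∑_{p ≤ Q} log p * p/(p-1)^2 = ∑_{p ≤ Q} (log p/(p-1) + log p/(p-1)^2) ≤ log Q + C`
(`Mertens.sum_pred_le`, `Mertens.sum_pp_le`, `(p-1)^2 ≥ p (p-1) / 2`).
-/

namespace Pool.Agent.helper23.EW

open Finset ArithmeticFunction

/-- a nonnegative sum over prime powers is at most the double sum over primes and exponents -/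
theorem sum_primePow_le (g : ℕ → ℝ) (hg : ∀ n, 0 ≤ g n) (hg0 : ∀ n, ¬ IsPrimePow n → g n = 0)
    (Q : ℕ) : ∑ n ∈ Icc 1 Q, g n ≤ ∑ p ∈ Nat.primesLE Q, ∑ j ∈ Icc 1 Q, g (p ^ j) := by
  classical
  rw [← Finset.sum_product' (f := fun p j => g (p ^ j))]
  have h1 : ∑ n ∈ Icc 1 Q, g n = ∑ n ∈ (Icc 1 Q).filter IsPrimePow, g n := by
    rw [Finset.sum_filter]
    refine Finset.sum_congr rfl fun n _ => ?_
    split_ifs with h
    · rfl
    · exact hg0 n h
  rw [h1]
  have hmap : ∀ n ∈ (Icc 1 Q).filter IsPrimePow,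
      n.minFac ^ n.factorization n.minFac = n := by
    intro n hn
    rw [Finset.mem_filter] at hn
    exact hn.2.minFac_pow_factorization_eq
  have h2 : ∑ n ∈ (Icc 1 Q).filter IsPrimePow, g n =
      ∑ z ∈ ((Icc 1 Q).filter IsPrimePow).image
        (fun n => (n.minFac, n.factorization n.minFac)), g (z.1 ^ z.2) := by
    rw [Finset.sum_image]
    · exact Finset.sum_congr rfl fun n hn => by rw [hmap n hn]
    · intro a ha b hb hab
      simp only [Prod.mk.injEq] at hab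
      rw [← hmap a ha, ← hmap b hb, hab.2, hab.1]
  rw [h2]
  refine Finset.sum_le_sum_of_subset_of_nonneg ?_ (fun z _ _ => hg _)
  intro z hz
  rw [Finset.mem_image] at hz
  obtain ⟨n, hn, rfl⟩ := hz
  have hn' := hn
  rw [Finset.mem_filter, Finset.mem_Icc] at hn'
  obtain ⟨⟨hn1, hnQ⟩, hpp⟩ := hn'
  have hn2 : n ≠ 1 := hpp.ne_one
  have hp : n.minFac.Prime := Nat.minFac_prime hn2
  rw [Finset.mem_product, Finset.mem_Icc, Nat.mem_primesLE]
  have h3 : 1 ≤ n.factorization n.minFac :=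
    (hp.dvd_iff_one_le_factorization (by omega)).1 (Nat.minFac_dvd n)
  refine ⟨⟨(Nat.minFac_le (by omega)).trans hnQ, hp⟩, h3, ?_⟩
  exact ((Nat.factorization_lt _ (by omega)).le).trans hnQ

theorem geom_le {p : ℝ} (hp : 1 < p) (Q : ℕ) :
    ∑ j ∈ Icc 1 Q, (1 / p ^ (j - 1)) ≤ p / (p - 1) := by
  have h0 : Icc 1 Q = Ico 1 (Q + 1) := by
    ext a
    simp
  have h1 : ∑ j ∈ Icc 1 Q, (1 / p ^ (j - 1)) = ∑ i ∈ range Q, (1 / p) ^ i := by
    rw [h0, Finset.sum_Ico_eq_sum_range]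
    refine Finset.sum_congr (by simp) fun i _ => ?_
    rw [Nat.add_sub_cancel_left, one_div_pow]
  have hp0 : 0 < p := by linarith
  have hq : 1 / p < 1 := by rw [div_lt_one hp0]; exact hp
  have h2 : 0 < p - 1 := by linarith
  have h3 : (1 / p) ^ Q ≥ 0 := by positivity
  have h6 : p / (p - 1) = 1 / (1 - 1 / p) := by
    have : 1 - 1 / p ≠ 0 := by linarith
    field_simp
  have h4 : ((1 / p) ^ Q - 1) / (1 / p - 1) = (1 - (1 / p) ^ Q) * (p / (p - 1)) := by
    rw [h6, mul_one_div, div_eq_div_iff (by linarith) (by linarith)]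
    ring
  rw [h1, geom_sum_eq (by linarith), h4]
  have h5 : 0 < p / (p - 1) := by positivity
  nlinarith

theorem lam_phi : ∃ C : ℝ, 0 ≤ C ∧ ∀ Q : ℕ, 1 ≤ Q →
    ∑ n ∈ Icc 1 Q, vonMangoldt n / (n.totient : ℝ) ≤ Real.log Q + C := by
  refine ⟨Real.log 4 + 3 * Pool.Agent.helper91.Mertens.Cpp, ?_, fun Q hQ => ?_⟩
  · have := Pool.Agent.helper91.Mertens.Cpp_nonneg
    have := Real.log_nonneg (show (1 : ℝ) ≤ 4 by norm_num)
    linarith
  refine (sum_primePow_le (fun n => vonMangoldt n / (n.totient : ℝ)) ?_ ?_ Q).trans ?_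
  · intro n
    have : (0 : ℝ) ≤ vonMangoldt n := vonMangoldt_nonneg
    positivity
  · intro n hn
    rw [vonMangoldt_apply, if_neg hn, zero_div]
  have h1 : ∀ p ∈ Nat.primesLE Q, ∑ j ∈ Icc 1 Q, vonMangoldt (p ^ j) / ((p ^ j).totient : ℝ) ≤
      Real.log p / ((p : ℝ) - 1) + 2 * (Real.log p / ((p : ℝ) * (p - 1))) := by
    intro p hp
    rw [Nat.mem_primesLE] at hp
    have hp2 : (2 : ℝ) ≤ p := by exact_mod_cast hp.2.two_le
    have hp1 : 0 < (p : ℝ) - 1 := by linarith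
    have hlog : 0 ≤ Real.log p := Real.log_nonneg (by linarith)
    have h2 : ∀ j ∈ Icc 1 Q, vonMangoldt (p ^ j) / ((p ^ j).totient : ℝ) =
        Real.log p / ((p : ℝ) - 1) * (1 / (p : ℝ) ^ (j - 1)) := by
      intro j hj
      rw [Finset.mem_Icc] at hj
      rw [vonMangoldt_apply_pow (by omega), vonMangoldt_apply_prime hp.2,
        Nat.totient_prime_pow hp.2 (by omega)]
      push_cast [Nat.cast_sub hp.2.one_le]
      field_simp
    rw [Finset.sum_congr rfl h2, ← Finset.mul_sum]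
    have h3 := geom_le (show (1 : ℝ) < p by linarith) Q
    calc Real.log p / ((p : ℝ) - 1) * ∑ j ∈ Icc 1 Q, (1 / (p : ℝ) ^ (j - 1))
        ≤ Real.log p / ((p : ℝ) - 1) * (p / (p - 1)) := by
          apply mul_le_mul_of_nonneg_left h3; positivity
      _ = Real.log p / ((p : ℝ) - 1) + Real.log p / (((p : ℝ) - 1) * (p - 1)) := by
          field_simp
          ring
      _ ≤ _ := by
          have h4 : Real.log p / (((p : ℝ) - 1) * (p - 1)) ≤
              2 * (Real.log p / ((p : ℝ) * (p - 1))) := by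
            rw [← mul_div_assoc, div_le_div_iff₀ (by positivity) (by positivity)]
            have : (p : ℝ) ≤ 2 * (p - 1) := by linarith
            have h5 : 0 ≤ Real.log p * ((p : ℝ) - 1) := by positivity
            nlinarith
          linarith
  refine (Finset.sum_le_sum h1).trans ?_
  rw [Finset.sum_add_distrib, ← Finset.mul_sum]
  have h6 := Pool.Agent.helper91.Mertens.sum_pred_le hQ
  have h7 := Pool.Agent.helper91.Mertens.sum_pp_le Q
  linarith

end Pool.Agent.helper23.EW
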