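import Pool.Agent.helper10.BV.Final
import Pool.Agent.helper62.Sieg.Good
import Pool.Agent.helper23.EW.LamPhi

/-!
# EW-Low: the moduli up to `√x / (log x) ^ 21`

(1) `bv_all`: `BVM.bv_theta BVM.dyadicBound BVM.swBound BVM.pntErr 1` (helper10/BV/D17.lean,
Final.lean) and `Pool.Agent.helper62.Sieg.good_all 21`.
(2) `low_sum`: `thetaAP n 1 x ≤ x / φ(n) + E n`, `Λ(n) ≤ log n ≤ log x`, (1) and `lam_phi`.
-/

namespace Pool.Agent.helper23.EW

open Finset ArithmeticFunction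

theorem bv_all : ∃ C : ℝ, ∃ x₀ : ℕ, 0 ≤ C ∧ ∀ x : ℕ, x₀ ≤ x →
    ∃ E : ℕ → ℝ, (∀ q, 0 ≤ E q) ∧
      (∀ q : ℕ, q ≠ 0 → |BVM.thetaAP q 1 x - x / q.totient| ≤ E q) ∧
      ∀ Q : ℕ, (Q : ℝ) ≤ √(x : ℝ) / Real.log x ^ 21 →
        ∑ q ∈ Icc 1 Q, E q ≤ C * x / Real.log x := by
  obtain ⟨C, hC, h⟩ := BVM.bv_theta BVM.dyadicBound BVM.swBound BVM.pntErr 1
  obtain ⟨x₀, hx₀⟩ := Pool.Agent.helper62.Sieg.good_all (3 * 1 + 18)
  refine ⟨C, max 3 ⌈x₀⌉₊, hC, fun x hx => ?_⟩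
  have hx3 : 3 ≤ x := le_trans (le_max_left _ _) hx
  have hx1 : x₀ ≤ (x : ℝ) :=
    (Nat.le_ceil _).trans (by exact_mod_cast le_trans (le_max_right _ _) hx)
  obtain ⟨E, hE0, hE1, hE2⟩ := h x hx3 (hx₀ x hx1)
  refine ⟨E, hE0, fun q hq => hE1 q 1 x hq (Nat.coprime_one_left q) le_rfl, fun Q hQ => ?_⟩
  have h1 := hE2 Q (by simpa using hQ)
  simpa using h1

theorem low_sum : ∃ C : ℝ, ∃ x₀ : ℕ, 0 ≤ C ∧ ∀ x Q : ℕ, x₀ ≤ x → 1 ≤ Q →
    (Q : ℝ) ≤ √(x : ℝ) / Real.log x ^ 21 →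
    ∑ n ∈ Icc 1 Q, vonMangoldt n * BVM.thetaAP n 1 x ≤ x * (Real.log Q + C) := by
  obtain ⟨C, x₀, hC, hbv⟩ := bv_all
  obtain ⟨C1, hC1, hlam⟩ := lam_phi
  refine ⟨C1 + C, max 3 x₀, by linarith, fun x Q hx hQ1 hQ => ?_⟩
  have hx3 : 3 ≤ x := le_trans (le_max_left _ _) hx
  have hx3' : (3 : ℝ) ≤ x := by exact_mod_cast hx3
  have hx0 : (0 : ℝ) < x := by linarith
  have hL : 1 ≤ Real.log x := by
    rw [Real.le_log_iff_exp_le hx0]
    exact (Real.exp_one_lt_d9.le.trans (by norm_num)).trans hx3'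
  have hL0 : 0 < Real.log x := by linarith
  obtain ⟨E, hE0, hE1, hE2⟩ := hbv x (le_trans (le_max_right _ _) hx)
  have hQx : (Q : ℝ) ≤ x := by
    refine hQ.trans ((div_le_self (Real.sqrt_nonneg _) (one_le_pow₀ hL)).trans ?_)
    rw [Real.sqrt_le_left hx0.le]
    nlinarith
  have h1 : ∀ n ∈ Icc 1 Q, vonMangoldt n * BVM.thetaAP n 1 x ≤
      x * (vonMangoldt n / (n.totient : ℝ)) + Real.log x * E n := by
    intro n hn
    rw [Finset.mem_Icc] at hn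
    have h2 := (abs_le.1 (hE1 n (by omega))).2
    have h3 : (0 : ℝ) ≤ vonMangoldt n := vonMangoldt_nonneg
    have h4 : vonMangoldt n ≤ Real.log x := by
      refine vonMangoldt_le_log.trans (Real.log_le_log (by exact_mod_cast hn.1) ?_)
      exact (by exact_mod_cast hn.2 : (n : ℝ) ≤ Q).trans hQx
    have h5 : BVM.thetaAP n 1 x ≤ x / n.totient + E n := by linarith
    calc vonMangoldt n * BVM.thetaAP n 1 x ≤ vonMangoldt n * (x / n.totient + E n) := by gcongr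
      _ = x * (vonMangoldt n / (n.totient : ℝ)) + vonMangoldt n * E n := by ring
      _ ≤ _ := by
        have := mul_le_mul_of_nonneg_right h4 (hE0 n)
        linarith
  refine (Finset.sum_le_sum h1).trans ?_
  rw [Finset.sum_add_distrib, ← Finset.mul_sum, ← Finset.mul_sum]
  have h6 : Real.log x * ∑ n ∈ Icc 1 Q, E n ≤ Real.log x * (C * x / Real.log x) := by
    have := hE2 Q hQ
    gcongr
  have h7 : Real.log x * (C * x / Real.log x) = C * x := by field_simp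
  have h8 : (x : ℝ) * ∑ n ∈ Icc 1 Q, vonMangoldt n / (n.totient : ℝ) ≤
      x * (Real.log Q + C1) := by
    have := hlam Q hQ1
    gcongr
  rw [h7] at h6
  calc _ ≤ x * (Real.log Q + C1) + C * x := add_le_add h8 h6
    _ = _ := by ring

end Pool.Agent.helper23.EW
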