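import Pool.Agent.helper10.BV.Defs3
import Pool.Agent.helper91.Mertens

/-!
# EW-PP: the proper prime powers

`thetaAP n 1 x ≤ log x * (x / n)` trivially (primes `k = 1 + n m ≤ x`, `m ≥ 1`). The series
`∑ Λ(n)/n` over the `n` that are not prime converges: its partial sums are at most
`∑_p log p * ∑_{j ≥ 2} p^(-j) = ∑_p log p / (p (p-1)) ≤ Mertens.Cpp`. So its tail beyond `Q₀` is
at most `ε`.
-/

namespace Pool.Agent.helper23.EW

open Finset ArithmeticFunction

theorem theta_triv {n x : ℕ} (hn : 1 ≤ n) : BVM.thetaAP n 1 x ≤ Real.log x * (x / n) := by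
  classical
  have hn0 : 0 < n := hn
  unfold BVM.thetaAP
  have hlogx : 0 ≤ Real.log x := Real.log_natCast_nonneg x
  set s : Finset ℕ := (Icc 1 x).filter (fun p => p.Prime ∧ p ≡ 1 [MOD n]) with hs
  have hcard : s.card ≤ x / n := by
    have hsub : s.card ≤ (Icc 1 (x / n)).card := by
      apply Finset.card_le_card_of_injOn (fun p => (p - 1) / n)
      · intro p hp
        rw [hs, Finset.mem_coe, mem_filter, mem_Icc] at hp
        obtain ⟨⟨hp1, hpx⟩, hpp, hpm⟩ := hp
        have hdvd : n ∣ p - 1 := (Nat.modEq_iff_dvd' hpp.one_le).mp hpm.symm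
        have hp2 := hpp.two_le
        have hle : n ≤ p - 1 := Nat.le_of_dvd (by omega) hdvd
        rw [Finset.mem_coe, mem_Icc]
        refine ⟨(Nat.one_le_div_iff hn0).mpr hle, Nat.div_le_div_right (by omega)⟩
      · intro p hp q hq hpq
        rw [hs, Finset.mem_coe, mem_filter, mem_Icc] at hp hq
        obtain ⟨⟨hp1, hpx⟩, hpp, hpm⟩ := hp
        obtain ⟨⟨hq1, hqx⟩, hqp, hqm⟩ := hq
        have hdp : n ∣ p - 1 := (Nat.modEq_iff_dvd' hpp.one_le).mp hpm.symm
        have hdq : n ∣ q - 1 := (Nat.modEq_iff_dvd' hqp.one_le).mp hqm.symm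
        have h1 : p - 1 = q - 1 := by
          have hpq' : (p - 1) / n = (q - 1) / n := hpq
          rw [← Nat.div_mul_cancel hdp, ← Nat.div_mul_cancel hdq, hpq']
        omega
    rwa [Nat.card_Icc, Nat.add_sub_cancel] at hsub
  calc ∑ p ∈ s, Real.log p ≤ ∑ _p ∈ s, Real.log x := by
        refine Finset.sum_le_sum (fun p hp => ?_)
        rw [hs, mem_filter, mem_Icc] at hp
        apply Real.log_le_log
        · exact_mod_cast hp.1.1
        · exact_mod_cast hp.1.2
    _ = (s.card : ℝ) * Real.log x := by rw [Finset.sum_const, nsmul_eq_mul]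
    _ ≤ ((x / n : ℕ) : ℝ) * Real.log x := by
        apply mul_le_mul_of_nonneg_right _ hlogx
        exact_mod_cast hcard
    _ ≤ ((x : ℝ) / n) * Real.log x := by
        apply mul_le_mul_of_nonneg_right Nat.cast_div_le hlogx
    _ = Real.log x * (x / n) := mul_comm _ _

theorem pp_sum_aux : Summable (fun n : ℕ => (if n.Prime then 0 else vonMangoldt n) / (n : ℝ)) := by
  have h := vonMangoldt.summable_residueClass_non_primes_div (q := 1) (a := 0)
  refine h.congr (fun n => ?_)
  congr 2
  unfold vonMangoldt.residueClass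
  rw [Set.indicator_of_mem]
  exact Subsingleton.elim _ _

theorem pp_tail {ε : ℝ} (hε : 0 < ε) : ∃ Q₀ : ℕ, ∀ Q x : ℕ, Q₀ ≤ Q →
    ∑ n ∈ (Ioc Q x).filter (fun n => ¬ n.Prime), vonMangoldt n * BVM.thetaAP n 1 x ≤
      ε * (x * Real.log x) := by
  classical
  obtain ⟨s, hs⟩ := summable_iff_vanishing_norm.mp pp_sum_aux ε hε
  refine ⟨s.sup id, fun Q x hQ => ?_⟩
  have hlogx : 0 ≤ Real.log x := Real.log_natCast_nonneg x
  have hdisj : Disjoint ((Ioc Q x).filter (fun n => ¬ n.Prime)) s := by
    rw [Finset.disjoint_left]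
    intro n hn hns
    rw [mem_filter, mem_Ioc] at hn
    have h1 : n ≤ s.sup id := Finset.le_sup (f := id) hns
    omega
  have h1 := hs _ hdisj
  have h2 : ∑ n ∈ (Ioc Q x).filter (fun n => ¬ n.Prime),
      (if n.Prime then 0 else vonMangoldt n) / (n : ℝ) ≤ ε :=
    (le_abs_self _).trans (by rw [← Real.norm_eq_abs]; exact h1.le)
  calc ∑ n ∈ (Ioc Q x).filter (fun n => ¬ n.Prime), vonMangoldt n * BVM.thetaAP n 1 x
      ≤ ∑ n ∈ (Ioc Q x).filter (fun n => ¬ n.Prime),
        (x * Real.log x) * ((if n.Prime then 0 else vonMangoldt n) / (n : ℝ)) := by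
        refine Finset.sum_le_sum (fun n hn => ?_)
        rw [mem_filter, mem_Ioc] at hn
        rw [if_neg hn.2]
        have hn1 : 1 ≤ n := by omega
        calc vonMangoldt n * BVM.thetaAP n 1 x ≤ vonMangoldt n * (Real.log x * (x / n)) :=
              mul_le_mul_of_nonneg_left (theta_triv hn1) vonMangoldt_nonneg
          _ = (x * Real.log x) * (vonMangoldt n / (n : ℝ)) := by ring
    _ = (x * Real.log x) * ∑ n ∈ (Ioc Q x).filter (fun n => ¬ n.Prime),
        ((if n.Prime then 0 else vonMangoldt n) / (n : ℝ)) := by rw [Finset.mul_sum]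
    _ ≤ (x * Real.log x) * ε := by
        apply mul_le_mul_of_nonneg_left h2
        positivity
    _ = ε * (x * Real.log x) := mul_comm _ _

end Pool.Agent.helper23.EW
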