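import Pool.Agent.helper23.EW.Mid
import Pool.Agent.helper23.EW.Low
import Pool.Agent.helper23.EW.PP
import Pool.Agent.helper23.EW.Total
import Pool.Agent.helper23.EW.High

/-!
# EW-Main: a positive proportion of good primes
-/

namespace Pool.Agent.helper23.EW

open Finset ArithmeticFunction Filter

/-- the elementary inequalities between the parameters -/
theorem params {s L : ℝ} (hL : 1 ≤ L) (h8 : 8 * L ^ 63 ≤ s) :
    2 ≤ s / L ^ 21 ∧ 8 * L ≤ s / L ^ 21 ∧ s ^ 2 ≤ (s / L ^ 21 / 2) ^ 3 := by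
  have hL0 : 0 < L := by linarith
  have e1 : (1 : ℝ) ≤ L ^ 21 := one_le_pow₀ hL
  have e2 : (1 : ℝ) ≤ L ^ 41 := one_le_pow₀ hL
  have e3 : (1 : ℝ) ≤ L ^ 42 := one_le_pow₀ hL
  have h1 : 8 * L ^ 42 ≤ s / L ^ 21 := by
    rw [le_div_iff₀ (by positivity)]
    calc 8 * L ^ 42 * L ^ 21 = 8 * L ^ 63 := by ring
      _ ≤ s := h8
  have hs : 0 < s := lt_of_lt_of_le (by positivity) h8
  refine ⟨?_, ?_, ?_⟩
  · linarith
  · refine le_trans ?_ h1
    have : L ≤ L ^ 42 := le_self_pow₀ hL (by norm_num)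
    linarith
  · have h2 : (s / L ^ 21 / 2) ^ 3 = s ^ 2 * (s / (8 * L ^ 63)) := by
      field_simp
      ring
    rw [h2]
    have h3 : 1 ≤ s / (8 * L ^ 63) := by
      rw [le_div_iff₀ (by positivity)]
      linarith
    nlinarith [sq_nonneg s]

theorem ev_log (a b : ℝ) {ε : ℝ} (hε : 0 < ε) :
    ∀ᶠ L : ℝ in atTop, a + b * Real.log L ≤ ε * L := by
  have h1 : ∀ᶠ L : ℝ in atTop, ‖Real.log L‖ ≤ ε / (2 * (|b| + 1)) * ‖L‖ :=
    Real.isLittleO_log_id_atTop.def (by positivity)
  have h2 : ∀ᶠ L : ℝ in atTop, 2 * a / ε ≤ L := eventually_ge_atTop _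
  filter_upwards [h1, h2, eventually_ge_atTop (1 : ℝ)] with L h1 h2 h3
  rw [Real.norm_of_nonneg (Real.log_nonneg h3), Real.norm_of_nonneg (by linarith)] at h1
  rw [div_le_iff₀ hε] at h2
  have hlog := Real.log_nonneg h3
  have h4 : b * Real.log L ≤ (|b| + 1) * Real.log L := by
    apply mul_le_mul_of_nonneg_right _ hlog
    linarith [le_abs_self b]
  have h5 : (|b| + 1) * Real.log L ≤ ε / 2 * L := by
    calc (|b| + 1) * Real.log L ≤ (|b| + 1) * (ε / (2 * (|b| + 1)) * L) := by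
          apply mul_le_mul_of_nonneg_left h1; positivity
      _ = ε / 2 * L := by field_simp
  linarith

theorem ev_sqrt : ∀ᶠ x : ℕ in atTop, 8 * Real.log x ^ 63 ≤ √(x : ℝ) := by
  obtain ⟨C, hC, h⟩ := BVM.exists_log_pow_mul_rpow_le' 64 0 (θ := 1 / 2) (by norm_num)
  have hlog : Tendsto (fun x : ℕ => Real.log x) atTop atTop :=
    Real.tendsto_log_atTop.comp tendsto_natCast_atTop_atTop
  filter_upwards [hlog.eventually_ge_atTop (8 * C), hlog.eventually_ge_atTop 1,
    eventually_ge_atTop 3] with x h1 h2 h3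
  have hx3 : (3 : ℝ) ≤ x := by exact_mod_cast h3
  have hx0 : (0 : ℝ) ≤ x := by linarith
  have h4 := h x hx3
  rw [pow_zero, div_one, ← Real.sqrt_eq_rpow] at h4
  have hs : 0 < √(x : ℝ) := Real.sqrt_pos.2 (by linarith)
  have hss : √(x : ℝ) * √(x : ℝ) = x := Real.mul_self_sqrt hx0
  have h5 : Real.log x ^ 64 ≤ C * √(x : ℝ) := by
    have : Real.log x ^ 64 * √(x : ℝ) ≤ (C * √(x : ℝ)) * √(x : ℝ) := by
      rw [mul_assoc, hss]
      exact h4
    exact le_of_mul_le_mul_right this hs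
  have hL0 : 0 < Real.log x := by linarith
  have h6 : 8 * Real.log x ^ 63 * Real.log x ≤ √(x : ℝ) * Real.log x := by
    calc 8 * Real.log x ^ 63 * Real.log x = 8 * Real.log x ^ 64 := by ring
      _ ≤ 8 * (C * √(x : ℝ)) := by linarith
      _ = √(x : ℝ) * (8 * C) := by ring
      _ ≤ √(x : ℝ) * Real.log x := by gcongr
  exact le_of_mul_le_mul_right h6 hL0

theorem good_card {c : ℝ} (hc : c < 1 / 2) : ∃ x₀ : ℕ, ∀ x : ℕ, x₀ ≤ x →
    c * x / Real.log x ≤ (good x).card := by
  classical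
  set ε : ℝ := (1 / 2 - c) / 4 with hε
  have hε0 : 0 < ε := by rw [hε]; linarith
  obtain ⟨C2, xm, hC2, hmid⟩ := mid_sum
  obtain ⟨C1, xl, hC1, hlow⟩ := low_sum
  obtain ⟨Q₀, hpp⟩ := pp_tail hε0
  obtain ⟨xt, htot⟩ := total_lower BVM.pntErr hε0
  have hlog : Tendsto (fun x : ℕ => Real.log x) atTop atTop :=
    Real.tendsto_log_atTop.comp tendsto_natCast_atTop_atTop
  have hev : ∀ᶠ x : ℕ in atTop, c * x / Real.log x ≤ (good x).card := by
    filter_upwards [hlog.eventually (ev_log (C1 + 80 * (Real.log 4 + C2)) 1680 hε0),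
      hlog.eventually_ge_atTop 1, hlog.eventually_ge_atTop ((Q₀ : ℝ) + 1), ev_sqrt,
      eventually_ge_atTop xm, eventually_ge_atTop xl, eventually_ge_atTop xt,
      eventually_ge_atTop 3] with x e1 e2 e3 e4 e5 e6 e7 e8
    set L : ℝ := Real.log x with hL
    have hL0 : 0 < L := by linarith
    have hx3 : (3 : ℝ) ≤ x := by exact_mod_cast e8
    have hx0 : (0 : ℝ) < x := by linarith
    set s : ℝ := √(x : ℝ) with hs
    have hs0 : 0 ≤ s := Real.sqrt_nonneg _
    have hss : s ^ 2 = x := Real.sq_sqrt hx0.le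
    obtain ⟨p1, p2, p3⟩ := params e2 e4
    have hs8 : 8 ≤ s := by
      have : (1 : ℝ) ≤ L ^ 63 := one_le_pow₀ e2
      linarith
    set Q : ℕ := ⌊s / L ^ 21⌋₊ with hQ
    set R : ℕ := Nat.sqrt x + 1 with hR
    have hQle : (Q : ℝ) ≤ s / L ^ 21 := Nat.floor_le (by positivity)
    have hQlt : s / L ^ 21 < Q + 1 := Nat.lt_floor_add_one _
    have hQge : s / L ^ 21 / 2 ≤ Q := by linarith
    have hQ1 : 1 ≤ Q := by
      have : (1 : ℝ) ≤ Q := by linarith
      exact_mod_cast this
    have hQ0 : Q₀ ≤ Q := by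
      have : (Q₀ : ℝ) ≤ Q := by linarith
      exact_mod_cast this
    have hQs : (Q : ℝ) ≤ s := hQle.trans (div_le_self hs0 (one_le_pow₀ e2))
    have hRs : (R : ℝ) ≤ s + 1 := by
      rw [hR]
      push_cast
      have : ((Nat.sqrt x : ℕ) : ℝ) ≤ s := Real.nat_sqrt_le_real_sqrt
      linarith
    have hsR : s ≤ R := by
      rw [hR]
      push_cast
      exact (Real.real_sqrt_lt_nat_sqrt_succ).le
    have hQR : Q ≤ R := by
      have : (Q : ℝ) ≤ R := hQs.trans hsR
      exact_mod_cast this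
    have hxQ : x ≤ Q ^ 3 := by
      have : (x : ℝ) ≤ (Q : ℝ) ^ 3 := by
        rw [← hss]
        refine p3.trans ?_
        gcongr
      exact_mod_cast this
    have hRx : R ^ 3 ≤ x ^ 2 := by
      have : (R : ℝ) ^ 3 ≤ (x : ℝ) ^ 2 := by
        calc (R : ℝ) ^ 3 ≤ (2 * s) ^ 3 := by gcongr; linarith
          _ = 8 * s ^ 3 := by ring
          _ ≤ s * s ^ 3 := by gcongr
          _ = (s ^ 2) ^ 2 := by ring
          _ = _ := by rw [hss]
      exact_mod_cast this
    have hRx' : R ≤ x := by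
      have : (R : ℝ) ≤ x := by
        rw [← hss]
        nlinarith
      exact_mod_cast this
    -- splitting
    set f : ℕ → ℝ := fun n => vonMangoldt n * BVM.thetaAP n 1 x with hf
    have hsplit : ∑ n ∈ Icc 1 x, f n = ∑ n ∈ Icc 1 Q, f n +
        ∑ n ∈ (Ioc Q x).filter (fun n => ¬ n.Prime), f n +
        (∑ n ∈ (Ioc Q R).filter Nat.Prime, f n + ∑ n ∈ (Ioc R x).filter Nat.Prime, f n) := by
      have h1 : Icc 1 x = Icc 1 Q ∪ Ioc Q x := by
        ext a; simp only [mem_Icc, mem_union, mem_Ioc]; omega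
      have h2 : Disjoint (Icc 1 Q) (Ioc Q x) := by
        rw [Finset.disjoint_left]; intro a ha hb
        simp only [mem_Icc, mem_Ioc] at ha hb; omega
      have h3 : Ioc Q x = Ioc Q R ∪ Ioc R x := by
        ext a; simp only [mem_union, mem_Ioc]; omega
      have h4 : Disjoint ((Ioc Q R).filter Nat.Prime) ((Ioc R x).filter Nat.Prime) := by
        rw [Finset.disjoint_left]; intro a ha hb
        simp only [mem_filter, mem_Ioc] at ha hb; omega
      rw [h1, Finset.sum_union h2, ← Finset.sum_filter_add_sum_filter_not (Ioc Q x) Nat.Prime]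
      have h5 : ∑ n ∈ (Ioc Q x).filter Nat.Prime, f n =
          ∑ n ∈ (Ioc Q R).filter Nat.Prime, f n + ∑ n ∈ (Ioc R x).filter Nat.Prime, f n := by
        rw [← Finset.sum_union h4, ← Finset.filter_union, ← h3]
      rw [h5]
      ring
    have hprime : ∀ (a b : ℕ), ∑ n ∈ (Ioc a b).filter Nat.Prime, f n =
        ∑ r ∈ (Ioc a b).filter Nat.Prime, Real.log r * BVM.thetaAP r 1 x := by
      intro a b
      refine Finset.sum_congr rfl fun n hn => ?_
      rw [Finset.mem_filter] at hn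
      simp only [hf]
      rw [vonMangoldt_apply_prime hn.2]
    have t0 := htot x e7
    have t1 := hlow x Q e6 hQ1 hQle
    have t2 := hpp Q x hQ0
    have t3 := hmid x Q R e5 hQ1 hQR hxQ hRx
    have t4 := high_sum x
    rw [← hR, ← hprime] at t4
    rw [← hprime] at t3
    have hlogQ : Real.log Q ≤ L / 2 := by
      have h1 : Real.log Q ≤ Real.log s := Real.log_le_log (by exact_mod_cast hQ1) hQs
      rw [hs, Real.log_sqrt hx0.le] at h1
      exact h1
    have hlogR : Real.log R - Real.log Q ≤ Real.log 4 + 21 * Real.log L := by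
      have hQpos : (0 : ℝ) < Q := by exact_mod_cast hQ1
      have h1 : (R : ℝ) ≤ 4 * L ^ 21 * Q := by
        have : s ≤ 2 * L ^ 21 * Q := by
          rw [div_div, div_le_iff₀ (by positivity)] at hQge
          linarith
        linarith
      have h2 : Real.log R ≤ Real.log (4 * L ^ 21 * Q) :=
        Real.log_le_log (by linarith) h1
      rw [Real.log_mul (by positivity) (by positivity), Real.log_mul (by norm_num) (by positivity),
        Real.log_pow] at h2
      push_cast at h2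
      linarith
    have key : (1 - ε) * (x * L) ≤ x * (L / 2 + C1) + ε * (x * L) +
        (80 * x * (Real.log 4 + 21 * Real.log L + C2) + (good x).card * L ^ 2) := by
      have a1 : x * (Real.log Q + C1) ≤ x * (L / 2 + C1) := by gcongr
      have a2 : 80 * x * (Real.log R - Real.log Q + C2) ≤
          80 * x * (Real.log 4 + 21 * Real.log L + C2) := by gcongr
      have t0' : (1 - ε) * (x * L) ≤ ∑ n ∈ Icc 1 x, f n := t0
      rw [hsplit] at t0'
      have t1' : ∑ n ∈ Icc 1 Q, f n ≤ x * (Real.log Q + C1) := t1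
      have t2' : ∑ n ∈ (Ioc Q x).filter (fun n => ¬ n.Prime), f n ≤ ε * (x * L) := t2
      linarith
    have e1' : x * (C1 + 80 * (Real.log 4 + C2) + 1680 * Real.log L) ≤ x * (ε * L) := by
      gcongr
    have key2 : (1 / 2 - 3 * ε) * (x * L) ≤ (good x).card * L ^ 2 := by nlinarith
    rw [div_le_iff₀ hL0]
    have key3 : (c * x) * L ≤ ((good x).card * L) * L := by
      have h1 : c ≤ 1 / 2 - 3 * ε := by rw [hε]; linarith
      have h2 : c * (x * L) ≤ (1 / 2 - 3 * ε) * (x * L) := by gcongr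
      nlinarith
    exact le_of_mul_le_mul_right key3 hL0
  exact eventually_atTop.1 hev

end Pool.Agent.helper23.EW
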