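import Pool.Agent.helper23.EW.BT
import Pool.Agent.helper91.Mertens

/-!
# EW-Mid: the middle range

From `theta_le` (each term `≤ log r * 80 * x / r`) and `Mertens.upper`, `Mertens.lower`
(helper91/Mertens.lean): `∑_{Q < r ≤ R} log r / r = M R - M Q ≤ log R - log Q + C`.
-/

namespace Pool.Agent.helper23.EW

open Finset

theorem mid_sum : ∃ C : ℝ, ∃ x₀ : ℕ, 0 ≤ C ∧ ∀ x Q R : ℕ, x₀ ≤ x → 1 ≤ Q → Q ≤ R → x ≤ Q ^ 3 →
    R ^ 3 ≤ x ^ 2 →
    ∑ r ∈ (Ioc Q R).filter Nat.Prime, Real.log r * BVM.thetaAP r 1 x ≤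
      80 * x * (Real.log R - Real.log Q + C) := by
  obtain ⟨x₀, hx₀⟩ := theta_le
  refine ⟨Real.log 4 + (1 + Pool.Agent.helper91.Mertens.Cpp), x₀, ?_, ?_⟩
  · have := Pool.Agent.helper91.Mertens.Cpp_nonneg
    have := Real.log_nonneg (show (1:ℝ) ≤ 4 by norm_num)
    linarith
  intro x Q R hx hQ hQR hxQ hRx
  have hterm : ∀ r ∈ (Ioc Q R).filter Nat.Prime,
      Real.log r * BVM.thetaAP r 1 x ≤ 80 * x * (Real.log r / r) := by
    intro r hr
    rw [mem_filter, mem_Ioc] at hr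
    obtain ⟨⟨h1, h2⟩, hp⟩ := hr
    have h3 : x ≤ r ^ 3 := hxQ.trans (Nat.pow_le_pow_left h1.le 3)
    have h4 : r ^ 3 ≤ x ^ 2 := (Nat.pow_le_pow_left h2 3).trans hRx
    have h5 := hx₀ x r hx hp h3 h4
    have h6 : 0 ≤ Real.log r := Real.log_nonneg (by exact_mod_cast hp.one_lt.le)
    calc Real.log r * BVM.thetaAP r 1 x ≤ Real.log r * (80 * x / r) :=
          mul_le_mul_of_nonneg_left h5 h6
      _ = 80 * x * (Real.log r / r) := by ring
  refine (sum_le_sum hterm).trans ?_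
  rw [← mul_sum]
  have hR1 : 1 ≤ R := hQ.trans hQR
  have hM : Pool.Agent.helper91.Mertens.M R = Pool.Agent.helper91.Mertens.M Q +
      ∑ r ∈ (Ioc Q R).filter Nat.Prime, Real.log r / r := by
    unfold Pool.Agent.helper91.Mertens.M
    rw [← sum_union]
    · apply sum_congr _ (fun _ _ => rfl)
      ext p
      simp only [Nat.mem_primesLE, mem_union, mem_filter, mem_Ioc]
      constructor
      · rintro ⟨h1, h2⟩
        by_cases h : p ≤ Q
        · exact Or.inl ⟨h, h2⟩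
        · exact Or.inr ⟨⟨by omega, h1⟩, h2⟩
      · rintro (⟨h1, h2⟩ | ⟨⟨h1, h2⟩, h3⟩)
        · exact ⟨h1.trans hQR, h2⟩
        · exact ⟨h2, h3⟩
    · rw [disjoint_left]
      intro p h1 h2
      simp only [Nat.mem_primesLE, mem_filter, mem_Ioc] at h1 h2
      omega
  have hu := Pool.Agent.helper91.Mertens.upper hR1
  have hl := Pool.Agent.helper91.Mertens.lower hQ
  apply mul_le_mul_of_nonneg_left _ (by positivity)
  linarith

end Pool.Agent.helper23.EW
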